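import Pool.Agent.Helper62K9.TW.St

set_option autoImplicit false

namespace Pool.Agent.Helper62K9.TW

open Finset Pool.Agent.Helper62K9.DV

theorem gl : S_GL := by
  intro X Q I _ _ P T M b E x q h hb hrun hev c y hy
  -- crossings
  have hcr : ∀ i, ∀ t < T, ∀ k < M, (¬ (h i t ≤ b k ↔ h i (t + 1) ≤ b k)) →
      (t, q i (t + 1)) ∈ E k := by
    intro i t ht k hk hne
    rw [← hev i k hk]
    exact mem_image.2 ⟨t, mem_filter.2 ⟨mem_range.2 ht, hne⟩, rfl⟩
  have hcr' : ∀ i, ∀ t < T, ∀ k < M, ∀ s, (t, s) ∈ E k →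
      (¬ (h i t ≤ b k ↔ h i (t + 1) ≤ b k)) ∧ q i (t + 1) = s := by
    intro i t ht k hk s hs
    rw [← hev i k hk] at hs
    obtain ⟨t', ht', he⟩ := mem_image.1 hs
    obtain ⟨rfl, rfl⟩ := Prod.ext_iff.1 he
    exact ⟨(mem_filter.1 ht').2, rfl⟩
  have hside : ∀ i i' t, t ≤ T → ∀ k < M, (h i t ≤ b k ↔ h i' t ≤ b k) := by
    intro i i' t
    induction t with
    | zero =>
      intro _ k _
      rw [(hrun i).2.1, (hrun i').2.1]
    | succ t ih =>
      intro ht k hk
      have h1 := ih (by omega) k hk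
      by_cases hx : h i t ≤ b k ↔ h i (t + 1) ≤ b k
      · have hx' : h i' t ≤ b k ↔ h i' (t + 1) ≤ b k := by
          by_contra hcon
          exact (hcr' i t (by omega) k hk _ (hcr i' t (by omega) k hk hcon)).1 hx
        rw [← hx, ← hx']
        exact h1
      · have hx' := (hcr' i' t (by omega) k hk _ (hcr i t (by omega) k hk hx)).1
        tauto
  have hseg : ∀ i i' t, t ≤ T → seg M b (h i t) = seg M b (h i' t) := by
    intro i i' t ht
    unfold seg
    congr 1
    apply filter_congr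
    intro k hk
    have := hside i i' t ht k (mem_range.1 hk)
    rw [← not_le, ← not_le, this]
  obtain ⟨s, hs⟩ : ∃ s : ℕ → ℕ, s = fun t => seg M b (h (c 0) t) := ⟨_, rfl⟩
  have hs' : ∀ i, ∀ t ≤ T, seg M b (h i t) = s t := by
    intro i t ht
    rw [hs]
    exact hseg i (c 0) t ht
  have hnext : ∀ t < T, q (c (s (t + 1))) (t + 1) = q (c (s t)) (t + 1) ∧
      h (c (s (t + 1))) (t + 1) = h (c (s t)) (t + 1) := by
    intro t ht
    by_cases he : s (t + 1) = s t
    · rw [he]
      exact ⟨rfl, rfl⟩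
    · obtain ⟨k, hk, hx⟩ : ∃ k < M,
          ¬ (h (c (s t)) t ≤ b k ↔ h (c (s t)) (t + 1) ≤ b k) := by
        by_contra hcon
        push Not at hcon
        apply he
        have e1 := hs' (c (s t)) (t + 1) (by omega)
        have e2 := hs' (c (s t)) t (by omega)
        have e3 : seg M b (h (c (s t)) (t + 1)) = seg M b (h (c (s t)) t) := by
          unfold seg
          congr 1
          apply filter_congr
          intro k hk
          have := hcon k (mem_range.1 hk)
          rw [← not_le, ← not_le, this]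
        omega
      have hmem := hcr (c (s t)) t ht k hk hx
      obtain ⟨hx', hq⟩ := hcr' (c (s (t + 1))) t ht k hk _ hmem
      refine ⟨hq, ?_⟩
      have hsd := hside (c (s t)) (c (s (t + 1))) (t + 1) (by omega) k hk
      have l1 := P.local_step _ _ _ _ _ _ ((hrun (c (s t))).2.2.2 t ht)
      have l2 := P.local_step _ _ _ _ _ _ ((hrun (c (s (t + 1)))).2.2.2 t ht)
      omega
  refine ⟨fun t => q (c (s t)) t, fun t => h (c (s t)) t, (hrun _).1, (hrun _).2.1,
    (hrun _).2.2.1, ?_⟩
  intro t ht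
  obtain ⟨h1, h2⟩ := hnext t ht
  simp only
  rw [h1, h2]
  have hbit : P.bit y (h (c (s t)) t) = P.bit (x (c (s t))) (h (c (s t)) t) := by
    unfold TwoWay.bit
    by_cases hlt : h (c (s t)) t < Fintype.card X
    · rw [dif_pos hlt, dif_pos hlt, hy]
      rw [Equiv.apply_symm_apply]
      simp only
      rw [hs' (c (s t)) t ht.le]
    · rw [dif_neg hlt, dif_neg hlt]
  rw [hbit]
  exact (hrun (c (s t))).2.2.2 t ht

end Pool.Agent.Helper62K9.TW
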