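import Pool.Agent.Helper62K9.TW.Re2
import Pool.Agent.Helper62K9.TW.Gl
import Pool.Agent.Helper62K9.SQ.Lo
import Pool.Agent.Helper86K9.SQ.Co
import Pool.Agent.Helper86K9.SQ.Ma

set_option autoImplicit false

/-!
# Two-way programs for vertex cover, all ratios
-/

namespace Pool.Agent.Helper62K9.TW

open Finset Pool.Agent.Helper62K9.DV Pool.Agent.Helper62K9.SQ

open Classical in
/-- counting for fixed pieces -/
theorem count2 {n m c r t M : ℕ} (f : Fin m × Fin (2 * c) ↪ Fin n)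
    (F : Finset (Fin m → Fin (2 * c))) (S : ℕ → Finset (Sym2 (Fin n)))
    (Acc : (Sym2 (Fin n) → Bool) → Prop)
    (hS1 : ∀ k, (S k).card ≤ 2 * t) (hS2 : ∀ i j, i ≠ j → Disjoint (S i) (S j))
    (hS3 : ∀ (d : ℕ → (Fin m → Fin (2 * c))) (y : Sym2 (Fin n) → Bool), (∀ k ≤ M, d k ∈ F) →
      (∀ k ≤ M, ∀ e ∈ S k, y e = code (touch (pick f (d k))) e) → Acc y)
    (hsound : ∀ G : SimpleGraph (Fin n), Acc (code G) → vc G ≤ c * m)
    (hc : 1 ≤ c) (hr : 0 < r) (htr : 4 * t ≤ r ^ 2) (hcm : 8 * c * r + 1 ≤ c * m) :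
    F.card ^ (M + 1) * 2 ^ (m * (2 * c)) ≤ ((2 * c) ^ m) ^ (M + 1) := by
  have hinj : Function.Injective (Sym2.map f) := Sym2.map.injective f.injective
  set P : Fin (M + 1) → (Fin m → Fin (2 * c)) → Finset (Sym2 (Fin n)) := fun i _ => S i with hPdef
  have hPd : ∀ i j : Fin (M + 1), i ≠ j → ∀ σ τ : Fin m → Fin (2 * c),
      Disjoint (P i σ) (P j τ) := fun i j hij _ _ => hS2 i j fun h => hij (Fin.ext h)
  set P' : Fin (M + 1) → (Fin m → Fin (2 * c)) → Finset (Sym2 (Fin m × Fin (2 * c))) :=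
    fun i σ => univ.filter fun e => Sym2.map f e ∈ P i σ with hP'
  have hco := Pool.Agent.Helper86K9.SQ.co m (2 * c) (c * m) r (2 * t) (M + 1) (fun _ => F) P'
    (by omega) hr (by omega) (by
      obtain ⟨e, he⟩ := Nat.exists_eq_add_of_le hcm
      have h1 : c * m - 1 = 8 * c * r + e := by omega
      rw [h1]
      calc 2 * (m * (2 * c)) * (2 * c) * r = c * m * (8 * c * r) := by ring
        _ ≤ c * m * (8 * c * r + e) := Nat.mul_le_mul_left _ (Nat.le_add_right _ _)) (by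
      intro i σ _
      refine le_trans ?_ (hS1 i)
      refine card_le_card_of_injOn (Sym2.map f) ?_ (hinj.injOn)
      intro e he
      exact (mem_filter.1 he).2) (by
      intro i j hij σ _ τ _
      rw [Finset.disjoint_left]
      intro e he1 he2
      exact Finset.disjoint_left.1 (hPd i j hij σ τ) (mem_filter.1 he1).2
        (mem_filter.1 he2).2) (by
      intro d hd
      have hacc' : Acc (code (Pool.Agent.Helper86K9.SQ.mix f P d)) := by
        refine hS3 (fun k => if hk : k < M + 1 then d ⟨k, hk⟩ else d 0) _ ?_ ?_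
        · intro k hk
          rw [dif_pos (by omega)]
          exact hd _
        · intro k hk e he
          rw [dif_pos (show k < M + 1 by omega)]
          induction e using Sym2.ind with
          | _ u v =>
            simp only [code, SimpleGraph.mem_edgeSet, decide_eq_decide]
            constructor
            · rintro ⟨h1, h2⟩
              refine ⟨h1, ?_⟩
              by_contra hcon
              push Not at hcon
              exact h2 ⟨⟨k, by omega⟩, he, hcon.1, hcon.2⟩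
            · rintro ⟨h1, h2⟩
              refine ⟨h1, ?_⟩
              rintro ⟨j, h3, h4, h5⟩
              have hij : (⟨k, by omega⟩ : Fin (M + 1)) = j := by
                by_contra hne
                exact (Finset.disjoint_left.1 (hPd _ j hne (d 0) (d j))) he h3
              subst hij
              rcases h2 with h2 | h2
              · exact h4 h2
              · exact h5 h2
      have hvc := hsound _ hacc'
      obtain ⟨C, hC, hCc⟩ := exists_cover (Pool.Agent.Helper86K9.SQ.mix f P d)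
      refine ⟨univ.filter fun p => f p ∉ C, ?_, ?_⟩
      · have h1 : (univ.filter fun p : Fin m × Fin (2 * c) => f p ∈ C).card ≤ C.card :=
          card_le_card_of_injOn f (fun p hp => (mem_filter.1 hp).2) f.injective.injOn
        have h2 := card_filter_add_card_filter_not (s := (univ : Finset (Fin m × Fin (2 * c))))
          (fun p => f p ∈ C)
        rw [card_univ, Fintype.card_prod, Fintype.card_fin, Fintype.card_fin] at h2
        have h3 : m * (2 * c) = c * m + c * m := by ring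
        omega
      · intro u hu v hv huv
        have hu' := (mem_filter.1 hu).2
        have hv' := (mem_filter.1 hv).2
        have hnadj : ¬ (Pool.Agent.Helper86K9.SQ.mix f P d).Adj (f u) (f v) := by
          intro h
          rcases hCc h with h' | h'
          · exact hu' h'
          · exact hv' h'
        have : ∃ i, s(f u, f v) ∈ P i (d i) ∧ f u ∉ pick f (d i) ∧ f v ∉ pick f (d i) := by
          by_contra hcon
          exact hnadj ⟨fun h => huv (f.injective h), hcon⟩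
        obtain ⟨i, h3, h4, h5⟩ := this
        refine ⟨i, mem_filter.2 ⟨mem_univ _, h3⟩, ?_, ?_⟩
        · intro h
          refine h4 (mem_image.2 ⟨u.1, mem_univ _, ?_⟩)
          rw [← h]
        · intro h
          refine h5 (mem_image.2 ⟨v.1, mem_univ _, ?_⟩)
          rw [← h])
  simpa using hco

/-- some program accepts many inputs -/
theorem many2 {n m c : ℕ} {E : ℝ} (f : Fin m × Fin (2 * c) ↪ Fin n) {R : Type} [Fintype R]
    {p : R → ℝ} (A : R → SimpleGraph (Fin n) → Prop) (hp : ∀ r, 0 ≤ p r) (hp1 : ∑ r, p r = 1)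
    (hcomp : ∀ G : SimpleGraph (Fin n), vc G ≤ m →
      (2 : ℝ) ^ (-E) ≤ ∑ r, Set.indicator {r | A r G} p r) :
    ∃ q, ∃ F : Finset (Fin m → Fin (2 * c)), (∀ σ ∈ F, A q (touch (pick f σ))) ∧
      (2 : ℝ) ^ (-E) * ((2 * c : ℕ) : ℝ) ^ m ≤ F.card := by
  classical
  set 𝓕 : R → Finset (Fin m → Fin (2 * c)) := fun q =>
    univ.filter fun σ => A q (touch (pick f σ)) with h𝓕
  set B : ℝ := (2 : ℝ) ^ (-E) * ((2 * c : ℕ) : ℝ) ^ m with hB
  obtain ⟨q, hq⟩ : ∃ q, B ≤ ((𝓕 q).card : ℝ) := by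
    by_contra hcon
    push Not at hcon
    have h2 : ∑ q, p q * ((𝓕 q).card : ℝ) = ∑ σ : Fin m → Fin (2 * c),
        ∑ q, Set.indicator {q | A q (touch (pick f σ))} p q := by
      rw [sum_comm]
      refine sum_congr rfl fun q _ => ?_
      rw [h𝓕]
      simp only [Set.indicator_apply, Set.mem_ofPred_eq]
      rw [← sum_filter, sum_const, nsmul_eq_mul, mul_comm]
    have h3 : B ≤ ∑ q, p q * ((𝓕 q).card : ℝ) := by
      rw [h2]
      have h4 : ∀ σ ∈ (univ : Finset (Fin m → Fin (2 * c))), (2 : ℝ) ^ (-E) ≤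
          ∑ q, Set.indicator {q | A q (touch (pick f σ))} p q := fun σ _ =>
        hcomp (touch (pick f σ)) (touch_vc f σ)
      have h5 := card_nsmul_le_sum (univ : Finset (Fin m → Fin (2 * c))) _ _ h4
      refine le_trans (le_of_eq ?_) h5
      rw [card_univ, Fintype.card_fun, Fintype.card_fin, Fintype.card_fin, nsmul_eq_mul, hB]
      push_cast
      ring
    have h4 : ∑ q, p q * ((𝓕 q).card : ℝ) < ∑ q, p q * B := by
      have hex : ∃ q, 0 < p q := by
        by_contra hcon'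
        push Not at hcon'
        have : ∑ q, p q ≤ 0 := sum_nonpos fun q _ => hcon' q
        linarith
      obtain ⟨q₀, hq₀⟩ := hex
      refine sum_lt_sum (fun q _ => mul_le_mul_of_nonneg_left (hcon q).le (hp q))
        ⟨q₀, mem_univ _, mul_lt_mul_of_pos_left (hcon q₀) hq₀⟩
    rw [← sum_mul, hp1, one_mul] at h4
    linarith
  exact ⟨q, 𝓕 q, fun σ hσ => (mem_filter.1 hσ).2, hq⟩

/-- the last step -/
theorem fin2 {n c K t M T s D : ℝ} (hK : K = 20001 * c ^ 2) (hn0 : 0 < n) (hc0 : 0 < c)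
    (ht : 0 < t) (htR : n ^ 2 / (20000 * c ^ 2) ≤ t) (hM0 : 0 ≤ M) (hT0 : 0 ≤ T) (hs0 : 0 ≤ s)
    (hM : M ≤ T * s) (hD : D ≤ T / t)
    (h12 : n / 4 ≤ K * (D * Real.logb 2 (M * (T * s) + 1))) :
    1 / 10 ^ 12 * n ^ 3 / c ^ 4 ≤ T * Real.logb 2 (T * s + 1) := by
  have hK0 : 0 < K := by rw [hK]; positivity
  have hTs0 : 0 ≤ T * s := by positivity
  have hMTs : 0 ≤ M * (T * s) := by positivity
  obtain ⟨L, hL⟩ : ∃ L, L = Real.logb 2 (T * s + 1) := ⟨_, rfl⟩
  obtain ⟨L2, hL2⟩ : ∃ L2, L2 = Real.logb 2 (M * (T * s) + 1) := ⟨_, rfl⟩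
  rw [← hL]
  rw [← hL2] at h12
  have hL0 : 0 ≤ L := by
    rw [hL]
    exact Real.logb_nonneg (by norm_num) (by linarith only [hTs0])
  have hL20 : 0 ≤ L2 := by
    rw [hL2]
    exact Real.logb_nonneg (by norm_num) (by linarith only [hMTs])
  have hL2L : L2 ≤ 2 * L := by
    have h1 : M * (T * s) + 1 ≤ (T * s + 1) ^ 2 := by
      have h2 : M * (T * s) ≤ (T * s) * (T * s) := mul_le_mul_of_nonneg_right hM hTs0
      have h3 : (T * s + 1) ^ 2 = (T * s) * (T * s) + 2 * (T * s) + 1 := by ring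
      linarith only [h2, h3, hTs0]
    have h3 : L2 ≤ Real.logb 2 ((T * s + 1) ^ 2) := by
      rw [hL2]
      exact Real.logb_le_logb_of_le (by norm_num) (by linarith only [hMTs]) h1
    rw [Real.logb_pow, ← hL] at h3
    exact_mod_cast h3
  have h13 : n / 4 ≤ K * (T / t * (2 * L)) := by
    refine h12.trans (mul_le_mul_of_nonneg_left ?_ hK0.le)
    exact mul_le_mul hD hL2L hL20 (by positivity)
  have h14 : n * t ≤ 8 * K * (T * L) := by
    have e1 : K * (T / t * (2 * L)) = 2 * K * (T * L) / t := by field_simp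
    rw [e1, le_div_iff₀ ht] at h13
    linarith only [h13]
  have h15 : n * (n ^ 2 / (20000 * c ^ 2)) ≤ 8 * K * (T * L) :=
    (mul_le_mul_of_nonneg_left htR hn0.le).trans h14
  have hTL0 : 0 ≤ T * L := by positivity
  have h16 : n ^ 3 ≤ 8 * K * (T * L) * (20000 * c ^ 2) := by
    have e1 : n * (n ^ 2 / (20000 * c ^ 2)) = n ^ 3 / (20000 * c ^ 2) := by ring
    rw [e1, div_le_iff₀ (by positivity)] at h15
    exact h15
  rw [div_le_iff₀ (by positivity)]
  have e2 : 8 * K * (T * L) * (20000 * c ^ 2) = 3200160000 * (T * L * c ^ 4) := by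
    rw [hK]; ring
  rw [e2] at h16
  have h17 : 0 ≤ T * L * c ^ 4 := by positivity
  linarith only [h16, h17]

/-- the lower bound for all ratios -/
theorem lball : ∃ γ : ℝ, 0 < γ ∧
    ∀ (n c T s : ℕ) (R : Type) [Fintype R] (p : R → ℝ) (Q : R → Type) [∀ r, Fintype (Q r)]
      (P : ∀ r, TwoWay (Sym2 (Fin n)) (Q r)),
      1 ≤ c → 2 ≤ n → (c : ℝ) ^ 4 * Real.logb 2 n ≤ γ * n → (∀ r, 0 ≤ p r) → ∑ r, p r = 1 →
      (∀ r, Fintype.card (Q r) ≤ s) →
      (∀ r, ∀ G : SimpleGraph (Fin n), (P r).Accepts T (code G) → vc G ≤ c * (n / (2 * c))) →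
      (∀ G : SimpleGraph (Fin n), vc G ≤ n / (2 * c) →
        (2 : ℝ) ^ (-(γ * n / (c : ℝ) ^ 2)) ≤
          ∑ r, Set.indicator {r | (P r).Accepts T (code G)} p r) →
      γ * (n : ℝ) ^ 3 / (c : ℝ) ^ 4 ≤ T * Real.logb 2 (T * s + 1) := by
  classical
  refine ⟨1 / 10 ^ 12, by positivity, ?_⟩
  intro n c T s R _ p Q _ P hc hn2 hlog hp hp1 hQ hsound hcomp
  have hc1 : (1 : ℝ) ≤ c := by exact_mod_cast hc
  have hc0 : (0 : ℝ) < c := by linarith
  have hn2' : (2 : ℝ) ≤ n := by exact_mod_cast hn2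
  have hn0 : (0 : ℝ) < n := by linarith
  have hlogn : (1 : ℝ) ≤ Real.logb 2 n := by
    rw [Real.le_logb_iff_rpow_le (by norm_num) hn0]
    simpa using hn2'
  have hc4 : (c : ℝ) ^ 4 * 10 ^ 12 ≤ n := by
    have h1 : (c : ℝ) ^ 4 * 1 ≤ (c : ℝ) ^ 4 * Real.logb 2 n :=
      mul_le_mul_of_nonneg_left hlogn (by positivity)
    have h2 := h1.trans hlog
    linarith
  have hc24 : (c : ℝ) ^ 2 ≤ (c : ℝ) ^ 4 := pow_le_pow_right₀ hc1 (by norm_num)
  have hc20 : (0 : ℝ) < (c : ℝ) ^ 2 := by positivity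
  have hbig : (c : ℝ) ^ 2 * 10 ^ 6 < n := by nlinarith
  obtain ⟨m, r, t, hm, hr, htr, har, -, hnm, hnt⟩ := numbersS hc hbig
  set E : ℝ := 1 / 10 ^ 12 * (n : ℝ) / (c : ℝ) ^ 2 with hE
  have hmn : m * (2 * c) ≤ n := by
    rw [hm]
    exact Nat.div_mul_le_self n (2 * c)
  obtain ⟨f⟩ : Nonempty (Fin m × Fin (2 * c) ↪ Fin n) :=
    Function.Embedding.nonempty_of_card_le (by simpa using hmn)
  -- the size of `t`
  have hcn : (10 : ℝ) ^ 12 ≤ (n : ℝ) ^ 2 / (c : ℝ) ^ 2 := by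
    rw [le_div_iff₀ hc20]
    nlinarith
  have htR : (n : ℝ) ^ 2 / (20000 * (c : ℝ) ^ 2) ≤ t := by
    have e1 : (n : ℝ) ^ 2 / (16384 * (c : ℝ) ^ 2) = 1 / 16384 * ((n : ℝ) ^ 2 / (c : ℝ) ^ 2) := by
      field_simp
    have e2 : (n : ℝ) ^ 2 / (20000 * (c : ℝ) ^ 2) = 1 / 20000 * ((n : ℝ) ^ 2 / (c : ℝ) ^ 2) := by
      field_simp
    rw [e1] at hnt
    rw [e2]
    linarith
  have htpos' : (0 : ℝ) < t := lt_of_lt_of_le (by positivity) htR
  have ht0 : 0 < t := by exact_mod_cast htpos'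
  have htn : (t : ℝ) ≤ (n : ℝ) ^ 2 := by
    have h1 : (4 * t : ℝ) ≤ (r : ℝ) ^ 2 := by exact_mod_cast htr
    have h2 : r ≤ n := by
      have h3 : c * m ≤ n := by nlinarith
      have h4 : r ≤ 8 * c * r := Nat.le_mul_of_pos_left r (by omega)
      omega
    have h3 : (r : ℝ) ≤ n := by exact_mod_cast h2
    have h4 : (r : ℝ) ^ 2 ≤ (n : ℝ) ^ 2 := pow_le_pow_left₀ (Nat.cast_nonneg r) h3 2
    linarith
  set M : ℕ := n ^ 2 / t with hM
  have hMt : n ^ 2 < t * (M + 1) := Nat.lt_mul_div_succ _ ht0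
  have hX : Fintype.card (Sym2 (Fin n)) ≤ (M + 1) * t := by
    have h1 : Fintype.card (Sym2 (Fin n)) = n * (n + 1) / 2 := by
      rw [Sym2.card, Fintype.card_fin, Nat.choose_two_right, Nat.add_sub_cancel, mul_comm]
    rw [h1, mul_comm (M + 1) t]
    refine le_trans ?_ hMt.le
    apply Nat.div_le_of_le_mul
    nlinarith
  set K : ℝ := 20001 * (c : ℝ) ^ 2 with hK
  have hMK : (M : ℝ) + 1 ≤ K := by
    have h1 : (M : ℝ) ≤ (n : ℝ) ^ 2 / t := by
      have := @Nat.cast_div_le ℝ _ _ _ (n ^ 2) t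
      push_cast at this
      exact this
    have h2 : (n : ℝ) ^ 2 / t ≤ 20000 * (c : ℝ) ^ 2 := by
      rw [div_le_iff₀ htpos']
      rw [div_le_iff₀ (by positivity)] at htR
      linarith
    have h3 : (1 : ℝ) ≤ (c : ℝ) ^ 2 := by nlinarith
    rw [hK]
    linarith
  have hK0 : 0 < K := by positivity
  obtain ⟨q, 𝓕, h𝓕, hB⟩ := many2 f (fun r G => (P r).Accepts T (code G)) hp hp1
    (fun G hG => hcomp G (hG.trans_eq hm))
  obtain ⟨F, hF𝓕, hFc, S, hS1, hS2, hS3⟩ := re2 gl (Sym2 (Fin n)) (Q q)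
    (Fin m → Fin (2 * c)) (P q) T M t 𝓕 (fun σ => code (touch (pick f σ))) ht0 hX h𝓕
  have hcm := count2 f F S (fun y => (P q).Accepts T y) hS1 hS2 hS3
    (fun G hacc => (hsound q G hacc).trans_eq (by rw [hm])) hc hr htr har
  -- logarithms
  set L2 : ℝ := Real.logb 2 (M * (T * s) + 1) with hL2
  have hTs : (0 : ℝ) ≤ M * (T * s) := by positivity
  have hL20 : 0 ≤ L2 := Real.logb_nonneg (by norm_num) (by linarith)
  set U : ℝ := M * Real.logb 2 t + (T / t : ℕ) * L2 with hU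
  have hV : ((t ^ M * (M * (T * Fintype.card (Q q)) + 1) ^ (T / t) : ℕ) : ℝ) ≤ (2 : ℝ) ^ U := by
    rw [hU, Real.rpow_add (by norm_num)]
    push_cast
    have e1 : (2 : ℝ) ^ ((M : ℝ) * Real.logb 2 t) = (t : ℝ) ^ M := by
      rw [mul_comm, Real.rpow_mul (by norm_num), Real.rpow_logb (by norm_num) (by norm_num) htpos',
        Real.rpow_natCast]
    have e2 : (2 : ℝ) ^ (((T / t : ℕ) : ℝ) * L2) = ((M : ℝ) * (T * s) + 1) ^ (T / t) := by
      rw [mul_comm, Real.rpow_mul (by norm_num), hL2,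
        Real.rpow_logb (by norm_num) (by norm_num) (by linarith), Real.rpow_natCast]
    rw [e1, e2]
    refine mul_le_mul_of_nonneg_left ?_ (by positivity)
    refine pow_le_pow_left₀ (by positivity) ?_ _
    have h1 : (Fintype.card (Q q) : ℝ) ≤ s := by exact_mod_cast hQ q
    have h2 : (T : ℝ) * Fintype.card (Q q) ≤ T * s :=
      mul_le_mul_of_nonneg_left h1 (Nat.cast_nonneg T)
    have h3 : (M : ℝ) * (T * Fintype.card (Q q)) ≤ M * (T * s) :=
      mul_le_mul_of_nonneg_left h2 (Nat.cast_nonneg M)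
    linarith
  have hFc' : (𝓕.card : ℝ) ≤ (2 : ℝ) ^ U * F.card := by
    have h6 : (𝓕.card : ℝ) ≤
        ((t ^ M * (M * (T * Fintype.card (Q q)) + 1) ^ (T / t) : ℕ) : ℝ) * F.card := by
      exact_mod_cast hFc
    exact h6.trans (mul_le_mul_of_nonneg_right hV (Nat.cast_nonneg _))
  have hcm' : (F.card : ℝ) ^ (M + 1) * 2 ^ (m * (2 * c)) ≤
      (((2 * c : ℕ) : ℝ) ^ m) ^ (M + 1) := by exact_mod_cast hcm
  have hC0 : (0 : ℝ) < (((2 * c : ℕ) : ℝ) ^ m) ^ (M + 1) := by positivity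
  have h6 : ((2 : ℝ) ^ (-E)) ^ (M + 1) * 2 ^ (m * (2 * c)) ≤ ((2 : ℝ) ^ U) ^ (M + 1) := by
    have h7 : (((2 : ℝ) ^ (-E)) ^ (M + 1) * 2 ^ (m * (2 * c))) *
        (((2 * c : ℕ) : ℝ) ^ m) ^ (M + 1) ≤
        ((2 : ℝ) ^ U) ^ (M + 1) * (((2 * c : ℕ) : ℝ) ^ m) ^ (M + 1) := by
      calc (((2 : ℝ) ^ (-E)) ^ (M + 1) * 2 ^ (m * (2 * c))) *
          (((2 * c : ℕ) : ℝ) ^ m) ^ (M + 1)
          = ((2 : ℝ) ^ (-E) * ((2 * c : ℕ) : ℝ) ^ m) ^ (M + 1) * 2 ^ (m * (2 * c)) := by
            rw [mul_pow]; ring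
        _ ≤ ((2 : ℝ) ^ U * F.card) ^ (M + 1) * 2 ^ (m * (2 * c)) := by
            refine mul_le_mul_of_nonneg_right ?_ (by positivity)
            exact pow_le_pow_left₀ (by positivity) (hB.trans hFc') _
        _ = ((2 : ℝ) ^ U) ^ (M + 1) * ((F.card : ℝ) ^ (M + 1) * 2 ^ (m * (2 * c))) := by
            rw [mul_pow]; ring
        _ ≤ _ := mul_le_mul_of_nonneg_left hcm' (by positivity)
    exact le_of_mul_le_mul_right h7 hC0
  have h8 : -E * (M + 1) + 2 * c * m ≤ U * (M + 1) := by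
    have e1 : ((2 : ℝ) ^ (-E)) ^ (M + 1) * 2 ^ (m * (2 * c)) =
        (2 : ℝ) ^ (-E * (M + 1) + 2 * c * m) := by
      rw [← Real.rpow_natCast, ← Real.rpow_mul (by norm_num), ← Real.rpow_natCast 2 (m * (2 * c)),
        ← Real.rpow_add (by norm_num)]
      congr 1
      push_cast
      ring
    have e2 : ((2 : ℝ) ^ U) ^ (M + 1) = (2 : ℝ) ^ (U * (M + 1)) := by
      rw [← Real.rpow_natCast, ← Real.rpow_mul (by norm_num)]
      push_cast
      rfl
    rw [e1, e2] at h6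
    exact (Real.rpow_le_rpow_left_iff (by norm_num)).1 h6
  have hE0 : 0 ≤ E := by positivity
  have ht1 : (1 : ℝ) ≤ t := by exact_mod_cast ht0
  have hlogt0 : 0 ≤ Real.logb 2 t := Real.logb_nonneg (by norm_num) ht1
  have hlogt : Real.logb 2 t ≤ 2 * Real.logb 2 n := by
    have h9 : Real.logb 2 t ≤ Real.logb 2 ((n : ℝ) ^ 2) :=
      Real.logb_le_logb_of_le (by norm_num) htpos' htn
    rw [Real.logb_pow] at h9
    exact_mod_cast h9
  have hM0 : (0 : ℝ) ≤ M := Nat.cast_nonneg M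
  have hU0 : 0 ≤ U := by positivity
  have h9 : (n : ℝ) / 2 ≤ K * (E + U) := by
    have h10 : (n : ℝ) / 2 ≤ (M + 1) * (E + U) := by
      calc (n : ℝ) / 2 ≤ 2 * c * m := hnm
        _ ≤ _ := by linarith
    exact h10.trans (mul_le_mul_of_nonneg_right hMK (by linarith))
  have hKE : K * E ≤ n / 16 := by
    have e1 : K * E = 20001 / 10 ^ 12 * n := by
      rw [hK, hE]
      field_simp
    rw [e1]
    linarith
  have hKlog : K * (M * Real.logb 2 t) ≤ n / 16 := by
    have h10 : (M : ℝ) * Real.logb 2 t ≤ K * (2 * Real.logb 2 n) :=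
      mul_le_mul (by linarith) hlogt hlogt0 hK0.le
    calc K * (M * Real.logb 2 t) ≤ K * (K * (2 * Real.logb 2 n)) :=
          mul_le_mul_of_nonneg_left h10 hK0.le
      _ = 2 * 20001 ^ 2 * ((c : ℝ) ^ 4 * Real.logb 2 n) := by rw [hK]; ring
      _ ≤ 2 * 20001 ^ 2 * (1 / 10 ^ 12 * n) := by gcongr
      _ ≤ n / 16 := by linarith
  have h12 : (n : ℝ) / 4 ≤ K * ((T / t : ℕ) * L2) := by
    have : K * (E + U) = K * E + K * (M * Real.logb 2 t) + K * ((T / t : ℕ) * L2) := by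
      rw [hU]; ring
    rw [this] at h9
    linarith
  -- `T` is at least `t`
  have hTt : t ≤ T := by
    by_contra hcon
    push Not at hcon
    rw [Nat.div_eq_of_lt hcon] at h12
    simp only [Nat.cast_zero, zero_mul, mul_zero] at h12
    linarith only [h12, hn0]
  have hs1 : 1 ≤ s := le_trans (Fintype.card_pos_iff.2 ⟨(P q).start⟩) (hQ q)
  have hMt' : M ≤ T * s := by
    have h1 : (M : ℝ) ≤ t := by
      have h2 : K ≤ (n : ℝ) ^ 2 / (20000 * (c : ℝ) ^ 2) := by
        rw [hK, le_div_iff₀ (by positivity)]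
        have e1 : 20001 * (c : ℝ) ^ 2 * (20000 * (c : ℝ) ^ 2) = 400020000 * (c : ℝ) ^ 4 := by ring
        rw [e1]
        have h3 : (0 : ℝ) ≤ (c : ℝ) ^ 4 := by positivity
        have h4 : (n : ℝ) ≤ (n : ℝ) ^ 2 := by
          have h5 : (n : ℝ) * 1 ≤ n * n :=
            mul_le_mul_of_nonneg_left (by linarith only [hn2']) hn0.le
          have h6 : (n : ℝ) ^ 2 = n * n := sq _
          linarith only [h5, h6]
        linarith only [hc4, h4, h3]
      linarith only [h2, htR, hMK]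
    have h2 : M ≤ t := by exact_mod_cast h1
    calc M ≤ T := h2.trans hTt
      _ ≤ T * s := Nat.le_mul_of_pos_right T hs1
  have hMt'' : (M : ℝ) ≤ T * s := by exact_mod_cast hMt'
  have hfin := fin2 (n := n) (c := c) (K := K) hK hn0 hc0 htpos' htR hM0 (Nat.cast_nonneg T)
    (Nat.cast_nonneg s) hMt'' Nat.cast_div_le h12
  exact hfin

end Pool.Agent.Helper62K9.TW
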