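import Pool.Agent.Helper62K9.TW.St

set_option autoImplicit false

namespace Pool.Agent.Helper62K9.TW

open Finset Pool.Agent.Helper62K9.DV

theorem cm : S_CM := by
  classical
  intro n a r t M F S Acc hr htr har hS hdis hmix hsound
  refine core n a r t M F (fun i _ => S i) hr htr har (fun i _ _ => hS i)
    (fun i j hij _ _ _ _ => hdis i j (by omega)) ?_
  intro c hc
  set c' : ℕ → (Fin n → Bool) := fun i => if h : i < M + 1 then c ⟨i, h⟩ else c 0 with hc'
  have hcF : ∀ i ≤ M, c' i ∈ F := by
    intro i hi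
    have : i < M + 1 := by omega
    simp only [hc', this, dif_pos]
    exact hc _
  have hacc' : Acc (code (mixed M (fun i _ => S i) c')) := by
    refine hmix c' _ hcF ?_
    intro i hi e he
    induction e using Sym2.ind with
    | _ u v =>
      simp only [code, SimpleGraph.mem_edgeSet, decide_eq_decide]
      constructor
      · rintro ⟨h1, h2⟩
        exact ⟨h1, fun h => h2 ⟨i, hi, he, h.1, h.2⟩⟩
      · rintro ⟨h1, h2⟩
        refine ⟨h1, ?_⟩
        rintro ⟨j, hj, h3, h4, h5⟩
        have hij : i = j := by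
          by_contra hne
          exact (Finset.disjoint_left.1 (hdis i j hne)) he h3
        subst hij
        exact h2 ⟨h4, h5⟩
  have hvc := hsound _ (mixed_matched M (fun i _ => S i) c') hacc'
  obtain ⟨K, hK, hKc⟩ := exists_cover (mixed M (fun i _ => S i) c')
  refine ⟨Kᶜ, ?_, ?_⟩
  · rw [card_compl, Fintype.card_prod, Fintype.card_fin, Fintype.card_bool, hK]
    omega
  · intro u hu v hv huv
    have hnadj : ¬ (mixed M (fun i _ => S i) c').Adj u v := by
      intro h
      rcases hKc h with h' | h'
      · exact (mem_compl.1 hu) h'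
      · exact (mem_compl.1 hv) h'
    have : ∃ i ≤ M, s(u, v) ∈ S i ∧ u.2 = c' i u.1 ∧ v.2 = c' i v.1 := by
      by_contra hcon
      exact hnadj ⟨huv, hcon⟩
    obtain ⟨i, hi, h3, h4, h5⟩ := this
    have hiM : i < M + 1 := by omega
    have hci : c' i = c ⟨i, hiM⟩ := by
      simp only [hc', hiM, dif_pos]
    rw [hci] at h4 h5
    exact ⟨⟨i, hiM⟩, h3, h4, h5⟩

end Pool.Agent.Helper62K9.TW
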