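import Pool.Agent.Helper62K9.TW.Ub
import Pool.Agent.Helper62K9.DW.Gap

set_option autoImplicit false

/-!
# Two-way programs for vertex cover: the upper bound for the ratio `2 - m / n`
-/

namespace Pool.Agent.Helper62K9.TW

open Finset Pool.Agent.Helper62K9.DV Pool.Agent.Helper62K9.DW

/-- guess a set `K` of at most `m` of the first `2m` vertices, then check in one pass that it is a
cover of the edges between them -/
def guess2 {m n : ℕ} (h : m ≤ n)
    (o : Sym2 (Fin n × Bool) ≃ Fin (Fintype.card (Sym2 (Fin n × Bool)))) :
    TwoWay (Sym2 (Fin n × Bool)) (Option (Finset (Fin m × Bool))) where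
  order := o
  start := none
  step _ q j b q' j' := j' = j + 1 ∧ ∃ K : Finset (Fin m × Bool), K.card ≤ m ∧ q' = some K ∧
    (q = none ∨ q = some K) ∧
    ∀ hj : j < Fintype.card (Sym2 (Fin n × Bool)), b = true →
      ∀ e : Sym2 (Fin m × Bool), o.symm ⟨j, hj⟩ = Sym2.map (first h) e → ∃ v ∈ K, v ∈ e
  local_step := by
    rintro t q j b q' j' ⟨h, -⟩
    omega
  final q := n = 0 ∨ q ≠ none

theorem guess2_accepts {m n : ℕ} (h0 : m ≤ n)
    (o : Sym2 (Fin n × Bool) ≃ Fin (Fintype.card (Sym2 (Fin n × Bool))))
    (G : SimpleGraph (Fin n × Bool)) :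
    (guess2 h0 o).Accepts (n * (2 * n + 1)) (code G) ↔ vc (G.comap (first h0)) ≤ m := by
  classical
  have hN := card_cells n
  rw [← hN]
  constructor
  · rintro ⟨q, h, h1, h2, h3, h4⟩
    rcases Nat.eq_zero_or_pos n with hn | hn
    · have : vc (G.comap (first h0)) ≤ 2 * m := by
        refine (vc_le _ univ (by simp)).trans ?_
        rw [card_univ, Fintype.card_prod, Fintype.card_fin, Fintype.card_bool]
        omega
      omega
    · have hNpos : 0 < Fintype.card (Sym2 (Fin n × Bool)) := by
        rw [hN]
        positivity
      have hh : ∀ t ≤ Fintype.card (Sym2 (Fin n × Bool)), h t = t := by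
        intro t
        induction t with
        | zero => exact fun _ => h2
        | succ t ih =>
          intro ht
          rw [(h4 t (by omega)).1, ih (by omega)]
      obtain ⟨-, K, hK, hq1, -, hc0⟩ := h4 0 hNpos
      have hq : ∀ t, t < Fintype.card (Sym2 (Fin n × Bool)) → q (t + 1) = some K := by
        intro t
        induction t with
        | zero => exact fun _ => hq1
        | succ t ih =>
          intro ht
          obtain ⟨-, K', -, hq2, hq3, -⟩ := h4 (t + 1) ht
          have := ih (by omega)
          rw [this] at hq3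
          rcases hq3 with hq3 | hq3
          · exact absurd hq3 (by simp)
          · rw [hq2, ← hq3]
      refine (vc_le _ K ?_).trans hK
      intro u v huv
      set j := o s(first h0 u, first h0 v) with hj
      obtain ⟨-, K', -, hq2, -, hc⟩ := h4 j j.2
      have hKK : K' = K := by
        have := hq j j.2
        rw [hq2, Option.some.injEq] at this
        exact this
      rw [hKK, hh j j.2.le] at hc
      have e1 : o.symm ⟨j, j.2⟩ = s(first h0 u, first h0 v) := by
        rw [Fin.eta, hj, Equiv.symm_apply_apply]
      have hbit : (guess2 h0 o).bit (code G) j = true := by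
        unfold TwoWay.bit
        rw [dif_pos j.2]
        show code G (o.symm ⟨j, j.2⟩) = true
        rw [e1]
        have h5 : G.Adj (first h0 u) (first h0 v) := huv
        simpa [code] using h5
      obtain ⟨w, hw, hwe⟩ := hc j.2 hbit s(u, v) e1
      rw [Sym2.mem_iff] at hwe
      rcases hwe with rfl | rfl
      · exact Or.inl hw
      · exact Or.inr hw
  · intro hvc
    obtain ⟨K, hK, hKc⟩ := exists_cover (G.comap (first h0))
    refine ⟨fun t => if t = 0 then none else some K, fun t => t, by simp [guess2], rfl, ?_, ?_⟩
    · show n = 0 ∨ _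
      rcases Nat.eq_zero_or_pos n with hn | hn
      · exact Or.inl hn
      · right
        have hNpos : Fintype.card (Sym2 (Fin n × Bool)) ≠ 0 := by
          rw [hN]
          positivity
        simp [hNpos]
    · intro t ht
      refine ⟨rfl, K, hK.trans_le hvc, by simp, ?_, ?_⟩
      · rcases Nat.eq_zero_or_pos t with h1 | h1
        · left
          simp [h1]
        · right
          simp [h1.ne']
      · intro hj hb e he
        unfold TwoWay.bit at hb
        rw [dif_pos hj] at hb
        change code G (o.symm ⟨t, hj⟩) = true at hb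
        rw [he] at hb
        induction e using Sym2.ind with
        | _ u v =>
          have hadj : G.Adj (first h0 u) (first h0 v) := by simpa [code] using hb
          have hadj' : (G.comap (first h0)).Adj u v := hadj
          rcases hKc hadj' with h | h
          · exact ⟨u, h, Sym2.mem_mk_left u v⟩
          · exact ⟨v, h, Sym2.mem_mk_right u v⟩

theorem gapTW (m n : ℕ) (h : m ≤ n)
    (o : Sym2 (Fin n × Bool) ≃ Fin (Fintype.card (Sym2 (Fin n × Bool)))) :
    ∃ (Q : Type) (_ : Fintype Q) (P : TwoWay (Sym2 (Fin n × Bool)) Q),
      Fintype.card Q ≤ 4 ^ m + 1 ∧ P.order = o ∧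
      (∀ t q j b q' j', P.step t q j b q' j' → j' = j + 1) ∧
      (∀ G ∈ matched n, vc G = n → P.Accepts (n * (2 * n + 1)) (code G)) ∧
      ∀ G : SimpleGraph (Fin n × Bool), P.Accepts (n * (2 * n + 1)) (code G) →
        vc G + m ≤ 2 * n := by
  refine ⟨Option (Finset (Fin m × Bool)), inferInstance, guess2 h o, ?_, rfl,
    fun t q j b q' j' h => h.1, ?_, ?_⟩
  · rw [Fintype.card_option, Fintype.card_finset, Fintype.card_prod, Fintype.card_fin,
      Fintype.card_bool]
    have : 2 ^ (m * 2) = 4 ^ m := by
      rw [mul_comm, pow_mul]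
      norm_num
    omega
  · intro G hG hvc
    exact (guess2_accepts h o G).2 (vc_first_le h hG hvc)
  · intro G hG
    have h5 := (guess2_accepts h o G).1 hG
    have h6 := vc_le_first h G
    omega

end Pool.Agent.Helper62K9.TW
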