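import Pool.Agent.Helper62K9.TW.Re2
import Pool.Agent.Helper62K9.TW.Gl
import Pool.Agent.Helper62K9.TW.Cm
import Pool.Agent.Helper52K9.TW.Lb

set_option autoImplicit false

/-!
# Two-way programs for vertex cover: the lower bound, uniform in the ratio
-/

namespace Pool.Agent.Helper62K9.TW

open Finset Pool.Agent.Helper62K9.DV Pool.Agent.Helper52K9.TW

/-- the last step -/
theorem fine {n ε K t M T s D : ℝ} (hK : K = 110598 / ε ^ 4) (hn0 : 0 < n) (hε : 0 < ε)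
    (ht : 0 < t) (htR : ε ^ 4 / 36864 * n ^ 2 ≤ t) (hM0 : 0 ≤ M) (hT0 : 0 ≤ T) (hs0 : 0 ≤ s)
    (hM : M ≤ T * s) (hD : D ≤ T / t)
    (h12 : n / 2 ≤ K * (D * Real.logb 2 (M * (T * s) + 1))) :
    1 / 10 ^ 13 * ε ^ 8 * n ^ 3 ≤ T * Real.logb 2 (T * s + 1) := by
  have hK0 : 0 < K := by rw [hK]; positivity
  have hTs0 : 0 ≤ T * s := by positivity
  have hMTs : 0 ≤ M * (T * s) := by positivity
  obtain ⟨L, hL⟩ : ∃ L, L = Real.logb 2 (T * s + 1) := ⟨_, rfl⟩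
  obtain ⟨L2, hL2⟩ : ∃ L2, L2 = Real.logb 2 (M * (T * s) + 1) := ⟨_, rfl⟩
  rw [← hL]
  rw [← hL2] at h12
  have hL0 : 0 ≤ L := by
    rw [hL]
    exact Real.logb_nonneg (by norm_num) (by linarith only [hTs0])
  have hL20 : 0 ≤ L2 := by
    rw [hL2]
    exact Real.logb_nonneg (by norm_num) (by linarith only [hMTs])
  have hL2L : L2 ≤ 2 * L := by
    have h1 : M * (T * s) + 1 ≤ (T * s + 1) ^ 2 := by
      have h2 : M * (T * s) ≤ (T * s) * (T * s) := mul_le_mul_of_nonneg_right hM hTs0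
      have h3 : (T * s + 1) ^ 2 = (T * s) * (T * s) + 2 * (T * s) + 1 := by ring
      linarith only [h2, h3, hTs0]
    have h3 : L2 ≤ Real.logb 2 ((T * s + 1) ^ 2) := by
      rw [hL2]
      exact Real.logb_le_logb_of_le (by norm_num) (by linarith only [hMTs]) h1
    rw [Real.logb_pow, ← hL] at h3
    exact_mod_cast h3
  have h13 : n / 2 ≤ K * (T / t * (2 * L)) := by
    refine h12.trans (mul_le_mul_of_nonneg_left ?_ hK0.le)
    exact mul_le_mul hD hL2L hL20 (by positivity)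
  have h14 : n * t ≤ 4 * K * (T * L) := by
    have e1 : K * (T / t * (2 * L)) = 2 * K * (T * L) / t := by field_simp
    rw [e1, le_div_iff₀ ht] at h13
    linarith only [h13]
  have h15 : n * (ε ^ 4 / 36864 * n ^ 2) ≤ 4 * K * (T * L) :=
    (mul_le_mul_of_nonneg_left htR hn0.le).trans h14
  have hTL0 : 0 ≤ T * L := by positivity
  have hε4 : 0 < ε ^ 4 := by positivity
  have h16 : ε ^ 8 * n ^ 3 ≤ 16308338688 * (T * L) := by
    have e1 : ε ^ 8 * n ^ 3 = 36864 * ε ^ 4 * (n * (ε ^ 4 / 36864 * n ^ 2)) := by ring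
    have e2 : 36864 * ε ^ 4 * (4 * K * (T * L)) = 16308338688 * (T * L) := by
      rw [hK]; field_simp; ring
    rw [e1, ← e2]
    exact mul_le_mul_of_nonneg_left h15 (by positivity)
  have e3 : 1 / 10 ^ 13 * ε ^ 8 * n ^ 3 = 1 / 10 ^ 13 * (ε ^ 8 * n ^ 3) := by ring
  rw [e3]
  linarith only [h16, hTL0]

theorem lbe : ∃ γ : ℝ, 0 < γ ∧ ∀ (c : ℝ) (n T s : ℕ) (R : Type) [Fintype R] (p : R → ℝ)
    (Q : R → Type) [∀ r, Fintype (Q r)] (P : ∀ r, TwoWay (Sym2 (Fin n × Bool)) (Q r)),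
    1 ≤ c → c < 2 → 2 ≤ n → Real.logb 2 n ≤ γ * (2 - c) ^ 8 * n →
    (∀ r, 0 ≤ p r) → ∑ r, p r = 1 → (∀ r, Fintype.card (Q r) ≤ s) →
    (∀ r, ∀ G ∈ matched n, (P r).Accepts T (code G) → (vc G : ℝ) ≤ c * n) →
    (∀ G ∈ matched n, vc G = n →
      (2 : ℝ) ^ (-(γ * (2 - c) ^ 4 * n)) ≤
        ∑ r, Set.indicator {r | (P r).Accepts T (code G)} p r) →
    γ * (2 - c) ^ 8 * (n : ℝ) ^ 3 ≤ T * Real.logb 2 (T * s + 1) := by
  classical
  refine ⟨1 / 10 ^ 13, by positivity, ?_⟩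
  intro c n T s R _ p Q _ P hc1 hc2 hn2 hlog hp hp1 hQ hsound hcomp
  obtain ⟨ε, hε⟩ : ∃ ε, ε = 2 - c := ⟨_, rfl⟩
  rw [← hε] at hlog hcomp ⊢
  have h0 : 0 < ε := by linarith only [hε, hc2]
  have h1 : ε ≤ 1 := by linarith only [hε, hc1]
  have hn2' : (2 : ℝ) ≤ n := by exact_mod_cast hn2
  have hn0 : (0 : ℝ) < n := by linarith only [hn2']
  have hlogn : (1 : ℝ) ≤ Real.logb 2 n := by
    rw [Real.le_logb_iff_rpow_le (by norm_num) hn0]
    simpa using hn2'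
  have hε2 : 0 < ε ^ 2 := by positivity
  have hε4 : 0 < ε ^ 4 := by positivity
  have hε8 : 0 < ε ^ 8 := by positivity
  have h48 : ε ^ 8 ≤ ε ^ 4 := pow_le_pow_of_le_one h0.le h1 (by norm_num)
  have h28 : ε ^ 8 ≤ ε ^ 2 := pow_le_pow_of_le_one h0.le h1 (by norm_num)
  have hbig : 10 ^ 13 ≤ ε ^ 8 * n := by
    have h2 : 1 / 10 ^ 13 * ε ^ 8 * n = 1 / 10 ^ 13 * (ε ^ 8 * n) := by ring
    rw [h2] at hlog
    linarith only [hlog, hlogn]
  have hn : 144 / ε ^ 2 ≤ n := by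
    rw [div_le_iff₀ hε2]
    have h3 : ε ^ 8 * n ≤ ε ^ 2 * n := mul_le_mul_of_nonneg_right h28 hn0.le
    linarith only [h3, hbig]
  set M' : ℕ := ⌈55296 / ε ^ 4⌉₊ with hM'
  have hMle : 55296 / ε ^ 4 ≤ M' := Nat.le_ceil _
  have hMge : (M' : ℝ) ≤ 55297 / ε ^ 4 := by
    have h2 : (M' : ℝ) < 55296 / ε ^ 4 + 1 := Nat.ceil_lt_add_one (by positivity)
    have h3 : (1 : ℝ) ≤ 1 / ε ^ 4 := by
      rw [le_div_iff₀ hε4, one_mul]
      exact pow_le_one₀ h0.le h1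
    have h4 : 55297 / ε ^ 4 = 55296 / ε ^ 4 + 1 / ε ^ 4 := by ring
    linarith only [h2, h3, h4]
  set M : ℕ := 2 * M' + 3 with hM
  set K : ℝ := 110598 / ε ^ 4 with hK
  have hK0 : 0 < K := by positivity
  have hMK : (M : ℝ) + 1 ≤ K := by
    have h2 : (M : ℝ) = 2 * M' + 3 := by rw [hM]; push_cast; rfl
    have h3 : (1 : ℝ) ≤ 1 / ε ^ 4 := by
      rw [le_div_iff₀ hε4, one_mul]
      exact pow_le_one₀ h0.le h1
    have h4 : K = 2 * (55297 / ε ^ 4) + 4 * (1 / ε ^ 4) := by rw [hK]; ring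
    linarith only [h2, h3, h4, hMge]
  obtain ⟨a, r, t, ha, hr, htr, har, hMt, hlt⟩ := numbers h0 h1 hn hMle
  have hcn : (10 : ℝ) ^ 13 * 2 ≤ ε ^ 4 * (n : ℝ) ^ 2 := by
    have h2 : ε ^ 8 * n ≤ ε ^ 4 * n := mul_le_mul_of_nonneg_right h48 hn0.le
    have h3 : (10 : ℝ) ^ 13 ≤ ε ^ 4 * n := hbig.trans h2
    calc (10 : ℝ) ^ 13 * 2 ≤ (ε ^ 4 * n) * n :=
          mul_le_mul h3 hn2' (by norm_num) (by positivity)
      _ = ε ^ 4 * (n : ℝ) ^ 2 := by ring
  have ht2 : 2 ≤ t := by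
    have h6 : (2 : ℝ) ≤ t := by linarith only [hcn, hlt]
    exact_mod_cast h6
  set w : ℕ := t / 2 with hw
  have hw0 : 0 < w := by omega
  have hwt : t ≤ 2 * w + 1 := by omega
  have hwt' : 2 * w ≤ t := by omega
  have hwR : ε ^ 4 / 36864 * (n : ℝ) ^ 2 ≤ w := by
    have h6 : (t : ℝ) ≤ 2 * w + 1 := by exact_mod_cast hwt
    have h7 : ε ^ 4 / 36864 * (n : ℝ) ^ 2 = (ε ^ 4 / 18432 * (n : ℝ) ^ 2) / 2 := by ring
    rw [h7]
    linarith only [h6, hlt]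
  have hwn : (w : ℝ) ≤ (n : ℝ) ^ 2 := by
    have har' : ((3 * n * r : ℕ) : ℝ) ≤ ((a * (a - 1) : ℕ) : ℝ) := by exact_mod_cast har
    have h6 : ((a * (a - 1) : ℕ) : ℝ) ≤ (a : ℝ) * a := by
      push_cast
      refine mul_le_mul_of_nonneg_left ?_ (Nat.cast_nonneg a)
      exact_mod_cast Nat.sub_le a 1
    have h7 : (a : ℝ) * a ≤ n * n := by
      have : (a : ℝ) ≤ n := ha.trans (by nlinarith only [h1, hn0])
      exact mul_le_mul this this (Nat.cast_nonneg a) (Nat.cast_nonneg n)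
    have h8 : (3 * n * r : ℝ) ≤ n * n := by
      push_cast at har' h6
      linarith only [har', h6, h7]
    have h9 : (r : ℝ) ≤ n := by
      have h10 : (n : ℝ) * (3 * r) ≤ n * n := by linarith only [h8]
      have h11 := le_of_mul_le_mul_left h10 hn0
      linarith only [h11, (Nat.cast_nonneg r : (0 : ℝ) ≤ r)]
    have h10 : (2 * t : ℝ) ≤ (r : ℝ) ^ 2 := by exact_mod_cast htr
    have h11 : (2 * w : ℝ) ≤ t := by exact_mod_cast hwt'
    have h12 : (r : ℝ) ^ 2 ≤ (n : ℝ) ^ 2 := pow_le_pow_left₀ (Nat.cast_nonneg r) h9 2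
    linarith only [h10, h11, h12, (Nat.cast_nonneg w : (0 : ℝ) ≤ w)]
  obtain ⟨q, 𝓕, h𝓕, hB⟩ := exists_many (δ := 1 / 10 ^ 13 * ε ^ 4)
    (fun r G => (P r).Accepts T (code G)) hp hp1 hcomp
  -- the windows
  have hcard : Fintype.card (Sym2 (Fin n × Bool)) ≤ (M + 1) * w := by
    rw [card_pairs]
    have h6 : 2 * (n * (2 * n + 1)) ≤ 2 * ((M + 1) * w) := by
      refine hMt.trans ?_
      calc t * (M' + 2) ≤ (4 * w) * (M' + 2) := Nat.mul_le_mul_right _ (by omega)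
        _ = 2 * ((M + 1) * w) := by rw [hM]; ring
    omega
  obtain ⟨F, hF𝓕, hFc, S, hS1, hS2, hS3⟩ := re2 gl (Sym2 (Fin n × Bool)) (Q q) (Fin n → Bool)
    (P q) T M w 𝓕 (fun σ => code (star σ)) hw0 hcard h𝓕
  have hcm := cm n a r t M F S (fun y => (P q).Accepts T y) hr htr har
    (fun k => (hS1 k).trans hwt') hS2 hS3 (fun G hG hacc => by
      have h2 := hsound q G hG hacc
      have h3 : ((vc G + a : ℕ) : ℝ) ≤ ((2 * n : ℕ) : ℝ) := by
        push_cast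
        have h4 : ε * n = 2 * n - c * n := by rw [hε]; ring
        linarith only [h2, ha, h4]
      exact_mod_cast h3)
  -- logarithms
  set L2 : ℝ := Real.logb 2 (M * (T * s) + 1) with hL2
  have hTs : (0 : ℝ) ≤ M * (T * s) := by positivity
  have hL20 : 0 ≤ L2 := Real.logb_nonneg (by norm_num) (by linarith only [hTs])
  have hwpos : (0 : ℝ) < w := by exact_mod_cast hw0
  obtain ⟨D, hD⟩ : ∃ D : ℝ, D = ((T / w : ℕ) : ℝ) := ⟨_, rfl⟩
  have hD0 : 0 ≤ D := by rw [hD]; positivity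
  obtain ⟨U, hU⟩ : ∃ U : ℝ, U = M * Real.logb 2 w + D * L2 := ⟨_, rfl⟩
  have hV : ((w ^ M * (M * (T * Fintype.card (Q q)) + 1) ^ (T / w) : ℕ) : ℝ) ≤ (2 : ℝ) ^ U := by
    rw [hU, Real.rpow_add (by norm_num), hD]
    push_cast
    have e1 : (2 : ℝ) ^ ((M : ℝ) * Real.logb 2 w) = (w : ℝ) ^ M := by
      rw [mul_comm, Real.rpow_mul (by norm_num), Real.rpow_logb (by norm_num) (by norm_num) hwpos,
        Real.rpow_natCast]
    have e2 : (2 : ℝ) ^ (((T / w : ℕ) : ℝ) * L2) = ((M : ℝ) * (T * s) + 1) ^ (T / w) := by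
      rw [mul_comm, Real.rpow_mul (by norm_num), hL2,
        Real.rpow_logb (by norm_num) (by norm_num) (by linarith only [hTs]), Real.rpow_natCast]
    rw [e1, e2]
    refine mul_le_mul_of_nonneg_left ?_ (by positivity)
    refine pow_le_pow_left₀ (by positivity) ?_ _
    have h1 : (Fintype.card (Q q) : ℝ) ≤ s := by exact_mod_cast hQ q
    have h2 : (T : ℝ) * Fintype.card (Q q) ≤ T * s :=
      mul_le_mul_of_nonneg_left h1 (Nat.cast_nonneg T)
    have h3 : (M : ℝ) * (T * Fintype.card (Q q)) ≤ M * (T * s) :=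
      mul_le_mul_of_nonneg_left h2 (Nat.cast_nonneg M)
    linarith only [h3]
  have hcm' : (F.card : ℝ) ^ (M + 1) * 2 ^ n ≤ 2 ^ (n * (M + 1)) := by exact_mod_cast hcm
  have hFc' : (𝓕.card : ℝ) ≤ (2 : ℝ) ^ U * F.card := by
    have h6 : (𝓕.card : ℝ) ≤
        ((w ^ M * (M * (T * Fintype.card (Q q)) + 1) ^ (T / w) : ℕ) : ℝ) * F.card := by
      exact_mod_cast hFc
    exact h6.trans (mul_le_mul_of_nonneg_right hV (Nat.cast_nonneg _))
  obtain ⟨δ, hδ⟩ : ∃ δ : ℝ, δ = 1 / 10 ^ 13 * ε ^ 4 := ⟨_, rfl⟩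
  rw [← hδ] at hB
  have h6 : ((2 : ℝ) ^ ((n : ℝ) - δ * n)) ^ (M + 1) * 2 ^ n ≤
      ((2 : ℝ) ^ U) ^ (M + 1) * 2 ^ (n * (M + 1)) := by
    calc ((2 : ℝ) ^ ((n : ℝ) - δ * n)) ^ (M + 1) * 2 ^ n
        ≤ ((2 : ℝ) ^ U * F.card) ^ (M + 1) * 2 ^ n := by
          refine mul_le_mul_of_nonneg_right ?_ (by positivity)
          exact pow_le_pow_left₀ (by positivity) (hB.trans hFc') _
      _ = ((2 : ℝ) ^ U) ^ (M + 1) * ((F.card : ℝ) ^ (M + 1) * 2 ^ n) := by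
          rw [mul_pow]; ring
      _ ≤ _ := mul_le_mul_of_nonneg_left hcm' (by positivity)
  have h7 : (2 : ℝ) ^ (((n : ℝ) - δ * n) * (M + 1) + n) ≤
      (2 : ℝ) ^ (U * (M + 1) + n * (M + 1)) := by
    have e1 : ((2 : ℝ) ^ ((n : ℝ) - δ * n)) ^ (M + 1) * 2 ^ n =
        (2 : ℝ) ^ (((n : ℝ) - δ * n) * (M + 1) + n) := by
      rw [← Real.rpow_natCast, ← Real.rpow_mul (by norm_num), ← Real.rpow_natCast 2 n,
        ← Real.rpow_add (by norm_num)]
      push_cast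
      rfl
    have e2 : ((2 : ℝ) ^ U) ^ (M + 1) * 2 ^ (n * (M + 1)) =
        (2 : ℝ) ^ (U * (M + 1) + n * (M + 1)) := by
      rw [← Real.rpow_natCast, ← Real.rpow_mul (by norm_num), ← Real.rpow_natCast 2 (n * (M + 1)),
        ← Real.rpow_add (by norm_num)]
      push_cast
      rfl
    rw [← e1, ← e2]
    exact h6
  have h8 : ((n : ℝ) - δ * n) * (M + 1) + n ≤ U * (M + 1) + n * (M + 1) :=
    (Real.rpow_le_rpow_left_iff (by norm_num)).1 h7
  have hw1 : (1 : ℝ) ≤ w := by exact_mod_cast hw0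
  have hlogw : Real.logb 2 w ≤ 2 * Real.logb 2 n := by
    have h9 : Real.logb 2 w ≤ Real.logb 2 ((n : ℝ) ^ 2) :=
      Real.logb_le_logb_of_le (by norm_num) hwpos hwn
    rw [Real.logb_pow] at h9
    exact_mod_cast h9
  have hlogw0 : 0 ≤ Real.logb 2 w := Real.logb_nonneg (by norm_num) hw1
  have hM0 : (0 : ℝ) ≤ M := Nat.cast_nonneg M
  have hU0 : 0 ≤ U := by
    rw [hU]
    positivity
  have hδ0 : 0 ≤ δ := by rw [hδ]; positivity
  have h9 : (n : ℝ) ≤ K * (δ * n + U) := by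
    have h10 : (n : ℝ) ≤ (M + 1) * (δ * n + U) := by
      have e1 : ((n : ℝ) - δ * n) * (M + 1) = n * (M + 1) - (M + 1) * (δ * n) := by ring
      have e2 : ((M : ℝ) + 1) * (δ * n + U) = (M + 1) * (δ * n) + U * (M + 1) := by ring
      rw [e1] at h8
      rw [e2]
      linarith only [h8]
    exact h10.trans (mul_le_mul_of_nonneg_right hMK (by positivity))
  have hKδ : K * (δ * n) ≤ n / 4 := by
    have e1 : K * (δ * n) = 110598 / 10 ^ 13 * n := by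
      rw [hK, hδ]
      field_simp
    rw [e1]
    linarith only [hn0]
  have hKlog : K * (M * Real.logb 2 w) ≤ n / 4 := by
    have h10 : (M : ℝ) * Real.logb 2 w ≤ K * (2 * Real.logb 2 n) :=
      mul_le_mul (by linarith only [hMK]) hlogw hlogw0 hK0.le
    have h11 : K * (K * (2 * Real.logb 2 n)) = 2 * 110598 ^ 2 * Real.logb 2 n / ε ^ 8 := by
      rw [hK]
      field_simp
    have h12 : Real.logb 2 n / ε ^ 8 ≤ 1 / 10 ^ 13 * n := by
      rw [div_le_iff₀ hε8]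
      linarith only [hlog]
    calc K * (M * Real.logb 2 w) ≤ K * (K * (2 * Real.logb 2 n)) :=
          mul_le_mul_of_nonneg_left h10 hK0.le
      _ = 2 * 110598 ^ 2 * (Real.logb 2 n / ε ^ 8) := by rw [h11]; ring
      _ ≤ 2 * 110598 ^ 2 * (1 / 10 ^ 13 * n) := by
          exact mul_le_mul_of_nonneg_left h12 (by norm_num)
      _ ≤ n / 4 := by linarith only [hn0]
  have h12 : (n : ℝ) / 2 ≤ K * (D * L2) := by
    have e1 : K * (δ * n + U) = K * (δ * n) + K * (M * Real.logb 2 w) + K * (D * L2) := by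
      rw [hU]; ring
    rw [e1] at h9
    linarith only [h9, hKδ, hKlog]
  -- `T` is at least `w`
  have hTw : w ≤ T := by
    by_contra hcon
    push Not at hcon
    rw [hD, Nat.div_eq_of_lt hcon] at h12
    simp only [Nat.cast_zero, zero_mul, mul_zero] at h12
    linarith only [h12, hn0]
  have hs1 : 1 ≤ s := le_trans (Fintype.card_pos_iff.2 ⟨(P q).start⟩) (hQ q)
  have hMt' : M ≤ T * s := by
    have h1 : (M : ℝ) ≤ w := by
      have h2 : K ≤ ε ^ 4 / 36864 * (n : ℝ) ^ 2 := by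
        rw [hK, div_le_iff₀ hε4]
        have e1 : ε ^ 4 / 36864 * (n : ℝ) ^ 2 * ε ^ 4 = 1 / 36864 * ((ε ^ 8 * n) * n) := by ring
        rw [e1]
        have h3 : (10 : ℝ) ^ 13 * 2 ≤ (ε ^ 8 * n) * n :=
          mul_le_mul hbig hn2' (by norm_num) (by positivity)
        linarith only [h3]
      linarith only [h2, hwR, hMK]
    have h2 : M ≤ w := by exact_mod_cast h1
    calc M ≤ T := h2.trans hTw
      _ ≤ T * s := Nat.le_mul_of_pos_right T hs1
  have hMt'' : (M : ℝ) ≤ T * s := by exact_mod_cast hMt'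
  exact fine (K := K) hK hn0 h0 hwpos hwR hM0 (Nat.cast_nonneg T)
    (Nat.cast_nonneg s) hMt'' (hD ▸ Nat.cast_div_le) h12

end Pool.Agent.Helper62K9.TW
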