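import Pool.Agent.Helper62K9.TW.St

set_option autoImplicit false

namespace Pool.Agent.Helper62K9.TW

open Finset Pool.Agent.Helper62K9.DV

/-- a boundary with few crossings -/
theorem exists_boundary (h : ℕ → ℕ) (T w k : ℕ) (hw : 0 < w)
    (hstep : ∀ t < T, h (t + 1) ≤ h t + 1 ∧ h t ≤ h (t + 1) + 1) :
    ∃ o < w, ((range T).filter fun t =>
      ¬ (h t ≤ k * w + o ↔ h (t + 1) ≤ k * w + o)).card ≤ T / w := by
  by_contra hcon0
  have hcon : ∀ o < w, T / w < ((range T).filter fun t =>
      ¬ (h t ≤ k * w + o ↔ h (t + 1) ≤ k * w + o)).card := by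
    intro o ho
    by_contra h'
    exact hcon0 ⟨o, ho, not_lt.1 h'⟩
  have h1 : ∑ o ∈ range w, ((range T).filter fun t =>
      ¬ (h t ≤ k * w + o ↔ h (t + 1) ≤ k * w + o)).card ≤ T := by
    rw [← card_biUnion]
    · calc _ ≤ (range T).card := card_le_card (by
            intro t ht
            obtain ⟨o, -, ho⟩ := mem_biUnion.1 ht
            exact (mem_filter.1 ho).1)
        _ = T := card_range T
    · intro o _ o' _ hne
      rw [Function.onFun, Finset.disjoint_left]
      intro t ht ht'
      obtain ⟨a1, a2⟩ := mem_filter.1 ht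
      obtain ⟨a3, a4⟩ := mem_filter.1 ht'
      have := hstep t (mem_range.1 a1)
      apply hne
      omega
  have h2 : w * (T / w + 1) ≤ ∑ o ∈ range w, ((range T).filter fun t =>
      ¬ (h t ≤ k * w + o ↔ h (t + 1) ≤ k * w + o)).card := by
    have := card_nsmul_le_sum (range w) (fun o => ((range T).filter fun t =>
      ¬ (h t ≤ k * w + o ↔ h (t + 1) ≤ k * w + o)).card) (T / w + 1)
      (fun o ho => hcon o (mem_range.1 ho))
    rwa [card_range, smul_eq_mul] at this
  have h3 : T < w * (T / w + 1) := Nat.lt_mul_div_succ T hw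
  omega

theorem card_small {α : Type} [DecidableEq α] (A : Finset α) (l : ℕ) :
    (A.powerset.filter fun E => E.card ≤ l).card ≤ (A.card + 1) ^ l := by
  induction l with
  | zero =>
    rw [pow_zero]
    refine card_le_one.2 ?_
    intro E hE E' hE'
    have h1 := (mem_filter.1 hE).2
    have h2 := (mem_filter.1 hE').2
    rw [Nat.le_zero, card_eq_zero] at h1 h2
    rw [h1, h2]
  | succ l ih =>
    have hsub : (A.powerset.filter fun E => E.card ≤ l + 1) ⊆
        ((insertNone A) ×ˢ (A.powerset.filter fun E => E.card ≤ l)).image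
          (fun p : Option α × Finset α => p.1.elim p.2 fun a => insert a p.2) := by
      intro E hE
      obtain ⟨h1, h2⟩ := mem_filter.1 hE
      rw [mem_powerset] at h1
      rw [mem_image]
      by_cases hE0 : E.card ≤ l
      · exact ⟨(none, E), mem_product.2 ⟨by simp, mem_filter.2 ⟨mem_powerset.2 h1, hE0⟩⟩, rfl⟩
      · have : E.Nonempty := by
          rw [← card_pos]
          omega
        obtain ⟨a, ha⟩ := this
        refine ⟨(some a, E.erase a), mem_product.2 ⟨by simpa using h1 ha, mem_filter.2 ⟨?_, ?_⟩⟩,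
          ?_⟩
        · exact mem_powerset.2 ((erase_subset _ _).trans h1)
        · simp only
          rw [card_erase_of_mem ha]
          omega
        · exact insert_erase ha
    calc _ ≤ _ := card_le_card hsub
      _ ≤ _ := card_image_le
      _ = (A.card + 1) * (A.powerset.filter fun E => E.card ≤ l).card := by
          rw [card_product, card_insertNone]
      _ ≤ (A.card + 1) * (A.card + 1) ^ l := Nat.mul_le_mul_left _ ih
      _ = (A.card + 1) ^ (l + 1) := by ring

theorem pigeon {A B : Type} [DecidableEq B] (S : Finset A) (𝒯 : Finset B) (h𝒯 : 𝒯.Nonempty)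
    (f : A → B) (hf : ∀ a ∈ S, f a ∈ 𝒯) :
    ∃ b ∈ 𝒯, S.card ≤ 𝒯.card * (S.filter fun a => f a = b).card := by
  by_contra hcon
  push Not at hcon
  have h1 : S.card = ∑ b ∈ 𝒯, (S.filter fun a => f a = b).card := card_eq_sum_card_fiberwise hf
  have h2 : 𝒯.card * S.card = ∑ b ∈ 𝒯, 𝒯.card * (S.filter fun a => f a = b).card := by
    rw [← mul_sum, ← h1]
  have h3 : ∑ b ∈ 𝒯, 𝒯.card * (S.filter fun a => f a = b).card < ∑ _b ∈ 𝒯, S.card :=
    sum_lt_sum_of_nonempty h𝒯 hcon
  rw [← h2, sum_const, smul_eq_mul] at h3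
  exact lt_irrefl _ h3

theorem seg_le (M : ℕ) (b : ℕ → ℕ) (j : ℕ) : seg M b j ≤ M := by
  unfold seg
  exact (card_filter_le _ _).trans_eq (card_range M)

theorem seg_bounds {M : ℕ} {b : ℕ → ℕ} (hb : ∀ i k, i < k → k < M → b i < b k) {j k : ℕ}
    (h : seg M b j = k) : (1 ≤ k → b (k - 1) < j) ∧ (k < M → j ≤ b k) := by
  unfold seg at h
  constructor
  · intro hk
    by_contra hcon
    push Not at hcon
    have hsub : (range M).filter (fun i => b i < j) ⊆ range (k - 1) := by
      intro i hi
      obtain ⟨h1, h2⟩ := mem_filter.1 hi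
      rw [mem_range] at h1 ⊢
      by_contra h3
      push Not at h3
      rcases h3.lt_or_eq with h4 | h4
      · have := hb (k - 1) i h4 h1
        omega
      · rw [h4] at hcon
        omega
    have := card_le_card hsub
    rw [h, card_range] at this
    omega
  · intro hk
    by_contra hcon
    push Not at hcon
    have hsub : range (k + 1) ⊆ (range M).filter (fun i => b i < j) := by
      intro i hi
      rw [mem_range] at hi
      refine mem_filter.2 ⟨mem_range.2 (by omega), ?_⟩
      rcases Nat.lt_or_ge i k with h4 | h4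
      · exact (hb i k h4 hk).trans hcon
      · have : i = k := by omega
        rw [this]
        exact hcon
    have := card_le_card hsub
    rw [h, card_range] at this
    omega

theorem re (hgl : S_GL) : S_RE := by
  classical
  intro X Q I _ _ P T M w 𝓕 x hw hX hacc
  have hex : ∀ i : I, ∃ (q : ℕ → Q) (h : ℕ → ℕ), i ∈ 𝓕 → P.Run T (x i) q h := by
    intro i
    by_cases hi : i ∈ 𝓕
    · obtain ⟨q, h, hr⟩ := hacc i hi
      exact ⟨q, h, fun _ => hr⟩
    · exact ⟨fun _ => P.start, fun _ => 0, fun h => absurd h hi⟩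
  choose q h hrun using hex
  have hob : ∀ (i : I) (k : ℕ), ∃ o : ℕ, o < w ∧ (i ∈ 𝓕 → ((range T).filter fun t =>
      ¬ (h i t ≤ k * w + o ↔ h i (t + 1) ≤ k * w + o)).card ≤ T / w) := by
    intro i k
    by_cases hi : i ∈ 𝓕
    · obtain ⟨o, h1, h2⟩ := exists_boundary (h i) T w k hw fun t ht =>
        P.local_step _ _ _ _ _ _ ((hrun i hi).2.2.2 t ht)
      exact ⟨o, h1, fun _ => h2⟩
    · exact ⟨0, hw, fun h => absurd h hi⟩
  choose o ho hoc using hob
  set ty : I → (Fin M → ℕ × Finset (ℕ × Q)) := fun i k =>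
    (o i k, events T (k * w + o i k) (q i) (h i)) with hty
  set U : Finset (Finset (ℕ × Q)) :=
    (range T ×ˢ (univ : Finset Q)).powerset.filter fun E => E.card ≤ T / w with hU
  set 𝒯 : Finset (Fin M → ℕ × Finset (ℕ × Q)) :=
    Fintype.piFinset fun _ : Fin M => range w ×ˢ U with h𝒯
  have hUne : (∅ : Finset (ℕ × Q)) ∈ U := mem_filter.2 ⟨by simp, by simp⟩
  have h𝒯ne : 𝒯.Nonempty := ⟨fun _ => (0, ∅), by
    rw [h𝒯, Fintype.mem_piFinset]
    intro k
    exact mem_product.2 ⟨mem_range.2 hw, hUne⟩⟩
  obtain ⟨τ, hτ, hcard⟩ := pigeon 𝓕 𝒯 h𝒯ne ty (by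
    intro i hi
    rw [h𝒯, Fintype.mem_piFinset]
    intro k
    refine mem_product.2 ⟨mem_range.2 (ho i k), mem_filter.2 ⟨?_, ?_⟩⟩
    · rw [mem_powerset]
      intro p hp
      obtain ⟨t, ht, rfl⟩ := mem_image.1 hp
      exact mem_product.2 ⟨(mem_filter.1 ht).1, mem_univ _⟩
    · exact card_image_le.trans (hoc i k hi))
  have hcardT : 𝒯.card ≤ (w * (T * Fintype.card Q + 1) ^ (T / w)) ^ M := by
    rw [h𝒯, Fintype.card_piFinset, prod_const, card_univ, Fintype.card_fin, card_product,
      card_range]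
    refine Nat.pow_le_pow_left (Nat.mul_le_mul_left _ ?_) _
    have := card_small (range T ×ˢ (univ : Finset Q)) (T / w)
    rwa [card_product, card_range, card_univ] at this
  set F := 𝓕.filter fun i => ty i = τ with hF
  obtain ⟨b, hbdef⟩ : ∃ b : ℕ → ℕ, b = fun k => if hk : k < M then k * w + (τ ⟨k, hk⟩).1 else 0 :=
    ⟨_, rfl⟩
  have hoff : ∀ k (hk : k < M), (τ ⟨k, hk⟩).1 < w := by
    intro k hk
    rw [h𝒯, Fintype.mem_piFinset] at hτ
    exact mem_range.1 (mem_product.1 (hτ ⟨k, hk⟩)).1
  have hbk : ∀ k (hk : k < M), b k = k * w + (τ ⟨k, hk⟩).1 := by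
    intro k hk
    rw [hbdef]
    simp only [hk, dif_pos]
  have hb1 : ∀ k, k < M → k * w ≤ b k ∧ b k < (k + 1) * w := by
    intro k hk
    have h1 := hoff k hk
    rw [hbk k hk, Nat.succ_mul]
    omega
  have hb : ∀ i k, i < k → k < M → b i < b k := by
    intro i k hik hk
    have h1 := (hb1 i (by omega)).2
    have h2 := (hb1 k hk).1
    have h3 : (i + 1) * w ≤ k * w := Nat.mul_le_mul_right w hik
    omega
  refine ⟨F, filter_subset _ _, hcard.trans (Nat.mul_le_mul_right _ hcardT),
    fun k => univ.filter fun e => seg M b (P.order e) = k, ?_, ?_, ?_⟩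
  · intro k
    have hinj : ((univ.filter fun e => seg M b (P.order e) = k).image
        fun e => ((P.order e : Fin (Fintype.card X)) : ℕ)) ⊆ Ico ((k - 1) * w) ((k + 1) * w) := by
      intro j hj
      obtain ⟨e, he, rfl⟩ := mem_image.1 hj
      have hseg := (mem_filter.1 he).2
      obtain ⟨h1, h2⟩ := seg_bounds hb hseg
      have hkM : k ≤ M := hseg ▸ seg_le M b _
      rw [mem_Ico]
      constructor
      · rcases Nat.eq_zero_or_pos k with h0 | h0
        · rw [h0]
          simp
        · have h3 := (hb1 (k - 1) (by omega)).1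
          have h4 := h1 h0
          omega
      · rcases hkM.lt_or_eq with h0 | h0
        · have h3 := (hb1 k h0).2
          have h4 := h2 h0
          omega
        · rw [h0]
          exact (P.order e).2.trans_le hX
    have hc : (univ.filter fun e => seg M b (P.order e) = k).card ≤
        (Ico ((k - 1) * w) ((k + 1) * w)).card := by
      rw [← card_image_of_injective _ (f := fun e => ((P.order e : Fin (Fintype.card X)) : ℕ))
        (fun e e' hee => P.order.injective (Fin.ext hee))]
      exact card_le_card hinj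
    refine hc.trans ?_
    rw [Nat.card_Ico]
    rcases Nat.eq_zero_or_pos k with h0 | h0
    · rw [h0]
      simp only [Nat.zero_sub, Nat.zero_mul, Nat.sub_zero, Nat.zero_add, Nat.one_mul]
      omega
    · obtain ⟨k', rfl⟩ : ∃ k', k = k' + 1 := ⟨k - 1, by omega⟩
      have e1 : (k' + 1 + 1) * w = k' * w + 2 * w := by ring
      rw [e1, Nat.add_sub_cancel]
      omega
  · intro i j hij
    rw [Finset.disjoint_left]
    intro e he he'
    exact hij ((mem_filter.1 he).2.symm.trans (mem_filter.1 he').2)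
  · intro c y hc hy
    have hc0 := hc 0 (Nat.zero_le _)
    refine hgl X Q {i // i ∈ F} P T M b (fun k => if hk : k < M then (τ ⟨k, hk⟩).2 else ∅)
      (fun i => x i.1) (fun i => q i.1) (fun i => h i.1) hb
      (fun i => hrun i.1 (mem_filter.1 i.2).1) ?_
      (fun k => if hk : k ≤ M then ⟨c k, hc k hk⟩ else ⟨c 0, hc0⟩) y ?_
    · intro i k hk
      have h1 : ty i.1 = τ := (mem_filter.1 i.2).2
      have h2 := congrFun h1 ⟨k, hk⟩
      rw [hty] at h2
      simp only at h2
      rw [dif_pos hk, ← h2, hbk k hk, ← h2]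
    · intro e
      have hle := seg_le M b (P.order e)
      simp only [hle, dif_pos]
      exact hy _ hle e (mem_filter.2 ⟨mem_univ _, rfl⟩)

end Pool.Agent.Helper62K9.TW
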