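import Pool.Agent.Helper62K9.TW.Re

set_option autoImplicit false

/-!
# A large subfamily with the same crossings, total number of crossings at most `T / w`
-/

namespace Pool.Agent.Helper62K9.TW

open Finset Pool.Agent.Helper62K9.DV

/-- the number of the crossings of the boundary `b` -/
def crs (h : ℕ → ℕ) (T b : ℕ) : ℕ :=
  ((range T).filter fun t => ¬ (h t ≤ b ↔ h (t + 1) ≤ b)).card

/-- boundaries with few crossings in total -/
theorem exists_boundaries (h : ℕ → ℕ) (T w M : ℕ) (hw : 0 < w)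
    (hstep : ∀ t < T, h (t + 1) ≤ h t + 1 ∧ h t ≤ h (t + 1) + 1) :
    ∃ o : ℕ → ℕ, (∀ k, o k < w) ∧ ∑ k ∈ range M, crs h T (k * w + o k) ≤ T / w := by
  have h1 : ∀ k : ℕ, ∃ o < w, w * crs h T (k * w + o) ≤ ∑ o ∈ range w, crs h T (k * w + o) := by
    intro k
    by_contra hcon
    push Not at hcon
    have h2 : ∑ _o ∈ range w, ∑ o ∈ range w, crs h T (k * w + o) <
        ∑ o' ∈ range w, w * crs h T (k * w + o') :=
      sum_lt_sum_of_nonempty (nonempty_range_iff.2 (by omega))
        (fun o ho => hcon o (mem_range.1 ho))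
    rw [sum_const, card_range, smul_eq_mul, ← mul_sum] at h2
    exact lt_irrefl _ h2
  choose o ho hoc using h1
  refine ⟨o, ho, ?_⟩
  have h2 : ∑ k ∈ range M, ∑ o ∈ range w, crs h T (k * w + o) ≤ T := by
    unfold crs
    rw [← sum_product' (f := fun k o => ((range T).filter fun t =>
      ¬ (h t ≤ k * w + o ↔ h (t + 1) ≤ k * w + o)).card), ← card_biUnion]
    · calc _ ≤ (range T).card := card_le_card (by
            intro t ht
            obtain ⟨o, -, ho⟩ := mem_biUnion.1 ht
            exact (mem_filter.1 ho).1)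
        _ = T := card_range T
    · intro p hp p' hp' hne
      rw [Function.onFun, Finset.disjoint_left]
      intro t ht ht'
      obtain ⟨a1, a2⟩ := mem_filter.1 ht
      obtain ⟨a3, a4⟩ := mem_filter.1 ht'
      have := hstep t (mem_range.1 a1)
      apply hne
      have e1 : p.1 * w + p.2 = p'.1 * w + p'.2 := by omega
      have hp2 : p.2 < w := by
        have := (mem_product.1 (mem_coe.1 hp)).2
        exact mem_range.1 this
      have hp2' : p'.2 < w := by
        have := (mem_product.1 (mem_coe.1 hp')).2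
        exact mem_range.1 this
      have e2 : p.1 = p'.1 := by
        have h3 : (p.1 * w + p.2) / w = p.1 := by
          rw [mul_comm, Nat.mul_add_div hw, Nat.div_eq_of_lt hp2, add_zero]
        have h4 : (p'.1 * w + p'.2) / w = p'.1 := by
          rw [mul_comm, Nat.mul_add_div hw, Nat.div_eq_of_lt hp2', add_zero]
        rw [← h3, ← h4, e1]
      have e3 : p.2 = p'.2 := by
        rw [e2] at e1
        omega
      exact Prod.ext e2 e3
  rw [Nat.le_div_iff_mul_le hw, mul_comm, mul_sum]
  exact (sum_le_sum fun k _ => hoc k).trans h2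

/-- [RE2] a large subfamily with the same boundaries (`b k` in `[k w, (k + 1) w)`) and the same
crossings, at most `T / w` in total -/
def S_RE2 : Prop :=
  ∀ (X Q I : Type) [Fintype X] [Fintype Q] (P : TwoWay X Q) (T M w : ℕ) (𝓕 : Finset I)
    (x : I → X → Bool), 0 < w → Fintype.card X ≤ (M + 1) * w →
    (∀ i ∈ 𝓕, P.Accepts T (x i)) →
    ∃ F ⊆ 𝓕, 𝓕.card ≤ (w ^ M * (M * (T * Fintype.card Q) + 1) ^ (T / w)) * F.card ∧
      ∃ S : ℕ → Finset X, (∀ k, (S k).card ≤ 2 * w) ∧ (∀ i j, i ≠ j → Disjoint (S i) (S j)) ∧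
        ∀ (c : ℕ → I) (y : X → Bool), (∀ k ≤ M, c k ∈ F) →
          (∀ k ≤ M, ∀ e ∈ S k, y e = x (c k) e) → P.Accepts T y

theorem re2 (hgl : S_GL) : S_RE2 := by
  classical
  intro X Q I _ _ P T M w 𝓕 x hw hX hacc
  have hex : ∀ i : I, ∃ (q : ℕ → Q) (h : ℕ → ℕ), i ∈ 𝓕 → P.Run T (x i) q h := by
    intro i
    by_cases hi : i ∈ 𝓕
    · obtain ⟨q, h, hr⟩ := hacc i hi
      exact ⟨q, h, fun _ => hr⟩
    · exact ⟨fun _ => P.start, fun _ => 0, fun h => absurd h hi⟩
  choose q h hrun using hex
  have hob : ∀ i : I, ∃ o : ℕ → ℕ, (∀ k, o k < w) ∧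
      (i ∈ 𝓕 → ∑ k ∈ range M, crs (h i) T (k * w + o k) ≤ T / w) := by
    intro i
    by_cases hi : i ∈ 𝓕
    · obtain ⟨o, h1, h2⟩ := exists_boundaries (h i) T w M hw fun t ht =>
        P.local_step _ _ _ _ _ _ ((hrun i hi).2.2.2 t ht)
      exact ⟨o, h1, fun _ => h2⟩
    · exact ⟨fun _ => 0, fun _ => hw, fun h => absurd h hi⟩
  choose o ho hoc using hob
  set ev : I → Fin M → Finset (ℕ × Q) := fun i k =>
    events T (k * w + o i k) (q i) (h i) with hev
  set ty : I → (Fin M → ℕ) × Finset (Fin M × (ℕ × Q)) := fun i =>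
    (fun k => o i k, univ.biUnion fun k => (ev i k).image fun p => (k, p)) with hty
  set U : Finset (Finset (Fin M × (ℕ × Q))) :=
    ((univ : Finset (Fin M)) ×ˢ (range T ×ˢ (univ : Finset Q))).powerset.filter
      fun E => E.card ≤ T / w with hU
  set 𝒯 : Finset ((Fin M → ℕ) × Finset (Fin M × (ℕ × Q))) :=
    (Fintype.piFinset fun _ : Fin M => range w) ×ˢ U with h𝒯
  have hUne : (∅ : Finset (Fin M × (ℕ × Q))) ∈ U := mem_filter.2 ⟨by simp, by simp⟩
  have h𝒯ne : 𝒯.Nonempty := ⟨(fun _ => 0, ∅), mem_product.2 ⟨by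
    rw [Fintype.mem_piFinset]
    intro k
    exact mem_range.2 hw, hUne⟩⟩
  obtain ⟨τ, hτ, hcard⟩ := pigeon 𝓕 𝒯 h𝒯ne ty (by
    intro i hi
    refine mem_product.2 ⟨?_, mem_filter.2 ⟨?_, ?_⟩⟩
    · rw [Fintype.mem_piFinset]
      intro k
      exact mem_range.2 (ho i k)
    · rw [mem_powerset]
      intro p hp
      obtain ⟨k, -, hk⟩ := mem_biUnion.1 hp
      obtain ⟨p', hp', rfl⟩ := mem_image.1 hk
      obtain ⟨t, ht, rfl⟩ := mem_image.1 hp'
      exact mem_product.2 ⟨mem_univ _, mem_product.2 ⟨(mem_filter.1 ht).1, mem_univ _⟩⟩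
    · refine card_biUnion_le.trans ?_
      refine le_trans ?_ (hoc i hi)
      rw [← Fin.sum_univ_eq_sum_range (fun k => crs (h i) T (k * w + o i k)) M]
      refine sum_le_sum fun k _ => ?_
      exact card_image_le.trans card_image_le)
  have hcardT : 𝒯.card ≤ w ^ M * (M * (T * Fintype.card Q) + 1) ^ (T / w) := by
    rw [h𝒯, card_product, Fintype.card_piFinset, prod_const, card_univ, Fintype.card_fin,
      card_range]
    refine Nat.mul_le_mul_left _ ?_
    have := card_small ((univ : Finset (Fin M)) ×ˢ (range T ×ˢ (univ : Finset Q))) (T / w)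
    rwa [card_product, card_product, card_range, card_univ, card_univ, Fintype.card_fin] at this
  set F := 𝓕.filter fun i => ty i = τ with hF
  obtain ⟨b, hbdef⟩ : ∃ b : ℕ → ℕ, b = fun k => if hk : k < M then k * w + τ.1 ⟨k, hk⟩ else 0 :=
    ⟨_, rfl⟩
  have hoff : ∀ k (hk : k < M), τ.1 ⟨k, hk⟩ < w := by
    intro k hk
    have h1 := (mem_product.1 hτ).1
    rw [Fintype.mem_piFinset] at h1
    exact mem_range.1 (h1 ⟨k, hk⟩)
  have hbk : ∀ k (hk : k < M), b k = k * w + τ.1 ⟨k, hk⟩ := by
    intro k hk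
    rw [hbdef]
    simp only [hk, dif_pos]
  have hb1 : ∀ k, k < M → k * w ≤ b k ∧ b k < (k + 1) * w := by
    intro k hk
    have h1 := hoff k hk
    rw [hbk k hk, Nat.succ_mul]
    omega
  have hb : ∀ i k, i < k → k < M → b i < b k := by
    intro i k hik hk
    have h1 := (hb1 i (by omega)).2
    have h2 := (hb1 k hk).1
    have h3 : (i + 1) * w ≤ k * w := Nat.mul_le_mul_right w hik
    omega
  refine ⟨F, filter_subset _ _, hcard.trans (Nat.mul_le_mul_right _ hcardT),
    fun k => univ.filter fun e => seg M b (P.order e) = k, ?_, ?_, ?_⟩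
  · intro k
    have hinj : ((univ.filter fun e => seg M b (P.order e) = k).image
        fun e => ((P.order e : Fin (Fintype.card X)) : ℕ)) ⊆ Ico ((k - 1) * w) ((k + 1) * w) := by
      intro j hj
      obtain ⟨e, he, rfl⟩ := mem_image.1 hj
      have hseg := (mem_filter.1 he).2
      obtain ⟨h1, h2⟩ := seg_bounds hb hseg
      have hkM : k ≤ M := hseg ▸ seg_le M b _
      rw [mem_Ico]
      constructor
      · rcases Nat.eq_zero_or_pos k with h0 | h0
        · rw [h0]
          simp
        · have h3 := (hb1 (k - 1) (by omega)).1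
          have h4 := h1 h0
          omega
      · rcases hkM.lt_or_eq with h0 | h0
        · have h3 := (hb1 k h0).2
          have h4 := h2 h0
          omega
        · rw [h0]
          exact (P.order e).2.trans_le hX
    have hc : (univ.filter fun e => seg M b (P.order e) = k).card ≤
        (Ico ((k - 1) * w) ((k + 1) * w)).card := by
      rw [← card_image_of_injective _ (f := fun e => ((P.order e : Fin (Fintype.card X)) : ℕ))
        (fun e e' hee => P.order.injective (Fin.ext hee))]
      exact card_le_card hinj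
    refine hc.trans ?_
    rw [Nat.card_Ico]
    rcases Nat.eq_zero_or_pos k with h0 | h0
    · rw [h0]
      simp only [Nat.zero_sub, Nat.zero_mul, Nat.sub_zero, Nat.zero_add, Nat.one_mul]
      omega
    · obtain ⟨k', rfl⟩ : ∃ k', k = k' + 1 := ⟨k - 1, by omega⟩
      have e1 : (k' + 1 + 1) * w = k' * w + 2 * w := by ring
      rw [e1, Nat.add_sub_cancel]
      omega
  · intro i j hij
    rw [Finset.disjoint_left]
    intro e he he'
    exact hij ((mem_filter.1 he).2.symm.trans (mem_filter.1 he').2)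
  · intro c y hc hy
    have hc0 := hc 0 (Nat.zero_le _)
    refine hgl X Q {i // i ∈ F} P T M b
      (fun k => if hk : k < M then (τ.2.filter fun p => p.1 = ⟨k, hk⟩).image Prod.snd else ∅)
      (fun i => x i.1) (fun i => q i.1) (fun i => h i.1) hb
      (fun i => hrun i.1 (mem_filter.1 i.2).1) ?_
      (fun k => if hk : k ≤ M then ⟨c k, hc k hk⟩ else ⟨c 0, hc0⟩) y ?_
    · intro i k hk
      have h1 : ty i.1 = τ := (mem_filter.1 i.2).2
      have h2 : o i.1 k = τ.1 ⟨k, hk⟩ := by
        rw [← h1]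
      have h3 : τ.2 = univ.biUnion fun k => (ev i.1 k).image fun p => (k, p) := by
        rw [← h1]
      rw [dif_pos hk, hbk k hk, ← h2]
      ext p
      constructor
      · intro hp
        refine mem_image.2 ⟨(⟨k, hk⟩, p), mem_filter.2 ⟨?_, rfl⟩, rfl⟩
        rw [h3]
        exact mem_biUnion.2 ⟨⟨k, hk⟩, mem_univ _, mem_image.2 ⟨p, hp, rfl⟩⟩
      · intro hp
        obtain ⟨p', hp', rfl⟩ := mem_image.1 hp
        obtain ⟨hp1, hp2⟩ := mem_filter.1 hp'
        rw [h3] at hp1
        obtain ⟨k', -, hk'⟩ := mem_biUnion.1 hp1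
        obtain ⟨p'', hp'', rfl⟩ := mem_image.1 hk'
        simp only at hp2 ⊢
        rw [hp2] at hp''
        exact hp''
    · intro e
      have hle := seg_le M b (P.order e)
      simp only [hle, dif_pos]
      exact hy _ hle e (mem_filter.2 ⟨mem_univ _, rfl⟩)

end Pool.Agent.Helper62K9.TW
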