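import Pool.Agent.Helper62K9.DV.Upper
import Pool.Agent.Helper62K9.DV.Asymp

set_option autoImplicit false

/-!
# Nondeterministic two-way programs for vertex cover: time times space is of order `n ^ 3`

The input is written on a tape, every variable in one cell, in an arbitrary order; a
nondeterministic, nonuniform, clocked program with `|Q|` states moves a head over the tape.
-/

namespace Pool.Agent.Helper62K9.TW

open Finset Pool.Agent.Helper62K9.DV

/-- A two-way program with states `Q` for inputs with the variables `X`. -/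
structure TwoWay (X Q : Type) [Fintype X] where
  /-- the order in which the variables are written on the tape -/
  order : X ≃ Fin (Fintype.card X)
  /-- the first state; the head starts at the cell `0` -/
  start : Q
  /-- `step t q j b q' j'`: in step number `t`, in the state `q` with the head at the cell `j` which
  contains the bit `b`, the program may go to the state `q'` and the cell `j'` -/
  step : ℕ → Q → ℕ → Bool → Q → ℕ → Prop
  /-- the head moves by at most one cell -/
  local_step : ∀ t q j b q' j', step t q j b q' j' → j' ≤ j + 1 ∧ j ≤ j' + 1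
  /-- the accepting states -/
  final : Q → Prop

/-- The bit in the cell `j` (cells after the input contain `false`). -/
def TwoWay.bit {X Q : Type} [Fintype X] (P : TwoWay X Q) (x : X → Bool) (j : ℕ) : Bool :=
  if h : j < Fintype.card X then x (P.order.symm ⟨j, h⟩) else false

/-- `q` and `h` (the states and the head positions) form a computation with `T` steps that
accepts `x`. -/
def TwoWay.Run {X Q : Type} [Fintype X] (P : TwoWay X Q) (T : ℕ) (x : X → Bool) (q : ℕ → Q)
    (h : ℕ → ℕ) : Prop :=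
  q 0 = P.start ∧ h 0 = 0 ∧ P.final (q T) ∧
    ∀ t < T, P.step t (q t) (h t) (P.bit x (h t)) (q (t + 1)) (h (t + 1))

/-- Some computation with `T` steps accepts `x`. -/
def TwoWay.Accepts {X Q : Type} [Fintype X] (P : TwoWay X Q) (T : ℕ) (x : X → Bool) : Prop :=
  ∃ (q : ℕ → Q) (h : ℕ → ℕ), P.Run T x q h

/-- the number of the boundaries `b k`, `k < M`, to the left of the cell `j` -/
def seg (M : ℕ) (b : ℕ → ℕ) (j : ℕ) : ℕ := ((range M).filter fun k => b k < j).card

/-- the crossings of the boundary `b` (between the cells `≤ b` and the cells `> b`): the numbers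
`t < T` of the steps together with the states reached -/
noncomputable def events {Q : Type} [DecidableEq Q] (T b : ℕ) (q : ℕ → Q) (h : ℕ → ℕ) :
    Finset (ℕ × Q) :=
  ((range T).filter fun t => ¬ (h t ≤ b ↔ h (t + 1) ≤ b)).image fun t => (t, q (t + 1))

/-- [GL] gluing of computations with the same crossings (boundaries strictly increasing) -/
def S_GL : Prop :=
  ∀ (X Q I : Type) [Fintype X] [DecidableEq Q] (P : TwoWay X Q) (T M : ℕ) (b : ℕ → ℕ)
    (E : ℕ → Finset (ℕ × Q)) (x : I → X → Bool) (q : I → ℕ → Q) (h : I → ℕ → ℕ),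
    (∀ i k, i < k → k < M → b i < b k) →
    (∀ i, P.Run T (x i) (q i) (h i)) →
    (∀ i, ∀ k < M, events T (b k) (q i) (h i) = E k) →
    ∀ (c : ℕ → I) (y : X → Bool),
      (∀ e : X, y e = x (c (seg M b (P.order e))) e) → P.Accepts T y

/-- [RE] a large subfamily with the same boundaries (`b k` in `[k w, (k + 1) w)`) and the same
crossings, at most `T / w` of each boundary -/
def S_RE : Prop :=
  ∀ (X Q I : Type) [Fintype X] [Fintype Q] (P : TwoWay X Q) (T M w : ℕ) (𝓕 : Finset I)
    (x : I → X → Bool), 0 < w → Fintype.card X ≤ (M + 1) * w →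
    (∀ i ∈ 𝓕, P.Accepts T (x i)) →
    ∃ F ⊆ 𝓕, 𝓕.card ≤ (w * (T * Fintype.card Q + 1) ^ (T / w)) ^ M * F.card ∧
      ∃ S : ℕ → Finset X, (∀ k, (S k).card ≤ 2 * w) ∧ (∀ i j, i ≠ j → Disjoint (S i) (S j)) ∧
        ∀ (c : ℕ → I) (y : X → Bool), (∀ k ≤ M, c k ∈ F) →
          (∀ k ≤ M, ∀ e ∈ S k, y e = x (c k) e) → P.Accepts T y

/-- [CM] counting with fixed pieces, from `DV.core` (see the proof of `DV.count_bound`) -/
def S_CM : Prop :=
  ∀ (n a r t M : ℕ) (F : Finset (Fin n → Bool)) (S : ℕ → Finset (Sym2 (Fin n × Bool)))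
    (Acc : (Sym2 (Fin n × Bool) → Bool) → Prop), 0 < r → 2 * t ≤ r ^ 2 →
    3 * n * r ≤ a * (a - 1) → (∀ k, (S k).card ≤ t) → (∀ i j, i ≠ j → Disjoint (S i) (S j)) →
    (∀ (c : ℕ → (Fin n → Bool)) (y : Sym2 (Fin n × Bool) → Bool), (∀ k ≤ M, c k ∈ F) →
      (∀ k ≤ M, ∀ e ∈ S k, y e = code (star (c k)) e) → Acc y) →
    (∀ G ∈ matched n, Acc (code G) → vc G + a ≤ 2 * n) →
    F.card ^ (M + 1) * 2 ^ n ≤ 2 ^ (n * (M + 1))

/-- [LB] the lower bound -/
def S_LB : Prop :=
  ∀ c : ℝ, c < 2 → ∃ δ : ℝ, 0 < δ ∧ ∃ n₀ : ℕ, ∀ (n T s : ℕ) (R : Type) [Fintype R] (p : R → ℝ)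
    (Q : R → Type) [∀ r, Fintype (Q r)] (P : ∀ r, TwoWay (Sym2 (Fin n × Bool)) (Q r)),
    n₀ ≤ n → (∀ r, 0 ≤ p r) → ∑ r, p r = 1 → (∀ r, Fintype.card (Q r) ≤ s) →
    (∀ r, ∀ G ∈ matched n, (P r).Accepts T (code G) → (vc G : ℝ) ≤ c * n) →
    (∀ G ∈ matched n, vc G = n →
      (2 : ℝ) ^ (-(δ * n)) ≤ ∑ r, Set.indicator {r | (P r).Accepts T (code G)} p r) →
    δ * (n : ℝ) ^ 3 ≤ T * Real.logb 2 (T * s + 1)

/-- [UB] the exact problem: guess the cover, then read the tape once from left to right -/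
def S_UB : Prop :=
  ∀ (n k : ℕ) (o : Sym2 (Fin n × Bool) ≃ Fin (Fintype.card (Sym2 (Fin n × Bool)))),
    ∃ (Q : Type) (_ : Fintype Q) (P : TwoWay (Sym2 (Fin n × Bool)) Q),
      Fintype.card Q ≤ 4 ^ n + 1 ∧ P.order = o ∧
      (∀ t q j b q' j', P.step t q j b q' j' → j' = j + 1) ∧
      ∀ G : SimpleGraph (Fin n × Bool), P.Accepts (n * (2 * n + 1)) (code G) ↔ vc G ≤ k

end Pool.Agent.Helper62K9.TW
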