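import Pool.Agent.Helper62K9.TW.St

set_option autoImplicit false

namespace Pool.Agent.Helper62K9.TW

open Finset Pool.Agent.Helper62K9.DV

theorem card_cells (n : ℕ) : Fintype.card (Sym2 (Fin n × Bool)) = n * (2 * n + 1) := by
  rw [Sym2.card, Fintype.card_prod, Fintype.card_fin, Fintype.card_bool, Nat.choose_two_right]
  have : (n * 2 + 1) * (n * 2 + 1 - 1) = (n * (2 * n + 1)) * 2 := by
    simp only [Nat.add_sub_cancel]
    ring
  rw [this, Nat.mul_div_cancel _ (by norm_num)]

/-- guess a set `K` of at most `k` vertices, then check in one pass that it is a cover -/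
def guess (n k : ℕ) (o : Sym2 (Fin n × Bool) ≃ Fin (Fintype.card (Sym2 (Fin n × Bool)))) :
    TwoWay (Sym2 (Fin n × Bool)) (Option (Finset (Fin n × Bool))) where
  order := o
  start := none
  step _ q j b q' j' := j' = j + 1 ∧ ∃ K : Finset (Fin n × Bool), K.card ≤ k ∧ q' = some K ∧
    (q = none ∨ q = some K) ∧
    ∀ hj : j < Fintype.card (Sym2 (Fin n × Bool)), b = true → ∃ v ∈ K, v ∈ o.symm ⟨j, hj⟩
  local_step := by
    rintro t q j b q' j' ⟨h, -⟩
    omega
  final q := n = 0 ∨ q ≠ none

theorem ub : S_UB := by
  classical
  intro n k o
  refine ⟨Option (Finset (Fin n × Bool)), inferInstance, guess n k o, ?_, rfl,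
    fun t q j b q' j' h => h.1, ?_⟩
  · rw [Fintype.card_option, Fintype.card_finset, Fintype.card_prod, Fintype.card_fin,
      Fintype.card_bool]
    have : 2 ^ (n * 2) = 4 ^ n := by
      rw [mul_comm, pow_mul]
      norm_num
    omega
  · intro G
    have hN := card_cells n
    rw [← hN]
    constructor
    · rintro ⟨q, h, h1, h2, h3, h4⟩
      rcases Nat.eq_zero_or_pos n with hn | hn
      · have : vc G ≤ 2 * n := by
          refine (vc_le G univ (by simp)).trans ?_
          rw [card_univ, Fintype.card_prod, Fintype.card_fin, Fintype.card_bool]
          omega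
        omega
      · have hNpos : 0 < Fintype.card (Sym2 (Fin n × Bool)) := by
          rw [hN]
          positivity
        have hh : ∀ t ≤ Fintype.card (Sym2 (Fin n × Bool)), h t = t := by
          intro t
          induction t with
          | zero => exact fun _ => h2
          | succ t ih =>
            intro ht
            rw [(h4 t (by omega)).1, ih (by omega)]
        obtain ⟨-, K, hK, hq1, -, hc0⟩ := h4 0 hNpos
        have hq : ∀ t, t < Fintype.card (Sym2 (Fin n × Bool)) → q (t + 1) = some K := by
          intro t
          induction t with
          | zero => exact fun _ => hq1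
          | succ t ih =>
            intro ht
            obtain ⟨-, K', -, hq2, hq3, -⟩ := h4 (t + 1) ht
            have := ih (by omega)
            rw [this] at hq3
            rcases hq3 with hq3 | hq3
            · exact absurd hq3 (by simp)
            · rw [hq2, ← hq3]
        refine (vc_le G K ?_).trans hK
        intro u v huv
        set j := o s(u, v) with hj
        obtain ⟨-, K', -, hq2, -, hc⟩ := h4 j j.2
        have hKK : K' = K := by
          have := hq j j.2
          rw [hq2, Option.some.injEq] at this
          exact this
        rw [hKK, hh j j.2.le] at hc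
        have hbit : (guess n k o).bit (code G) j = true := by
          unfold TwoWay.bit
          rw [dif_pos j.2]
          show code G (o.symm ⟨j, j.2⟩) = true
          have : o.symm ⟨j, j.2⟩ = s(u, v) := by
            rw [Fin.eta, hj, Equiv.symm_apply_apply]
          rw [this]
          simpa [code] using huv
        obtain ⟨w, hw, hwe⟩ := hc j.2 hbit
        have e1 : o.symm ⟨j, j.2⟩ = s(u, v) := by
          rw [Fin.eta, hj, Equiv.symm_apply_apply]
        rw [e1, Sym2.mem_iff] at hwe
        rcases hwe with rfl | rfl
        · exact Or.inl hw
        · exact Or.inr hw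
    · intro hvc
      obtain ⟨K, hK, hKc⟩ := exists_cover G
      refine ⟨fun t => if t = 0 then none else some K, fun t => t, by simp [guess], rfl, ?_, ?_⟩
      · show n = 0 ∨ _
        rcases Nat.eq_zero_or_pos n with hn | hn
        · exact Or.inl hn
        · right
          have hNpos : Fintype.card (Sym2 (Fin n × Bool)) ≠ 0 := by
            rw [hN]
            positivity
          simp [hNpos]
      · intro t ht
        refine ⟨rfl, K, hK.trans_le hvc, by simp, ?_, ?_⟩
        · rcases Nat.eq_zero_or_pos t with h0 | h0
          · left
            simp [h0]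
          · right
            simp [h0.ne']
        · intro hj hb
          unfold TwoWay.bit at hb
          rw [dif_pos hj] at hb
          change code G (o.symm ⟨t, hj⟩) = true at hb
          obtain ⟨e, he⟩ : ∃ e, e = o.symm ⟨t, hj⟩ := ⟨_, rfl⟩
          rw [← he] at hb ⊢
          induction e using Sym2.ind with
          | _ u v =>
            have hadj : G.Adj u v := by simpa [code] using hb
            rcases hKc hadj with h | h
            · exact ⟨u, h, Sym2.mem_mk_left u v⟩
            · exact ⟨v, h, Sym2.mem_mk_right u v⟩

end Pool.Agent.Helper62K9.TW
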